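import Pool.Agent.HG.C2
import Pool.Agent.HFinG.O2
import Pool.Agent.HFinG.O3
import Pool.Agent.HFinG.N3

/-! MODULE C3 (diff 3): from an invariant Finsler metric on the orbit to a norm on `𝔪`.

Let `F` be a Finsler metric on `Ms ⊇ {psi 1 v}` with
`F (ρ (sec v) w0) (ρ (sec v) (tau x)) = F w0 (tau x)` for all `v, x`.
* `pull_frame`: `F (psi 1 v) (Dpsi(v) y) = Fm (Xm v y)`, `Fm x = F w0 (tau x)` (`psi_fderiv`).
* chart: `e : V' ≃L[ℝ] V` (`ContinuousLinearEquiv.ofFinrankEq`), `U0 ∋ 0` open where `Dpsi 1` is injective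
  (`psi_inj`), `ψ = psi 1 ∘ e`, `U = e ⁻¹' U0`: `IsParam Ms U ψ`.
* `norm_of_finsler`: `zero`, `pos`, `smul` from the properties of `F` at `ψ 0 = w0`, `Dψ(0) y = tau (e y)`
  (`Xm 0 = id`, `(frame M hP).zero_m`).  `smooth`: restrict the smoothness of `F (ψ v) (Dψ(v) y)` to `v = 0`.
  `conv`: `lg (pullE F ψ) 0 y u u = fund Fm (e y) (e u) (e u)` since `pullE F ψ 0 y = Fm (e y) ^ 2 / 2`.
* `posFlag_of_finsler`: `pullE F ψ v = compE (frameE Fm Xm) e v` for all `v`, so `lK_comp`, `lK_frame` give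
  `lK (pullE F ψ) 0 y w = flagK D Fm (e y) (e w)`.  (`IsEnergy (frameE Fm Xm) U1` for a neighbourhood `U1` of `0`:
  as in `HFinG.frame_energy`, file `HFinG/P7.lean`, copy the proof: `lg_frame`, `frame_inj`.)
  `lK_frame` needs the infinitesimal invariance (`inv_of_exp`): it is the hypothesis `hH`.
-/

namespace HG

open HFinG
open scoped ContDiff Topology

variable {𝔸 V H : Type*} [NormedRing 𝔸] [NormedAlgebra ℝ 𝔸] [CompleteSpace 𝔸]
  [NormedAddCommGroup V] [NormedSpace ℝ V] [NormedAddCommGroup H] [NormedSpace ℝ H]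
  [FiniteDimensional ℝ V] [FiniteDimensional ℝ H]
  {M : MatModel 𝔸 V H} {W : Type*} [NormedAddCommGroup W] [NormedSpace ℝ W]
  {V' : Type*} [NormedAddCommGroup V'] [NormedSpace ℝ V'] [FiniteDimensional ℝ V']

theorem frame_energy {prm : 𝔸 →L[ℝ] V} {prh : 𝔸 →L[ℝ] H} (hP : M.IsProj prm prh) {Fm : V → ℝ}
    (hF : IsMinkowski Fm) :
    ∃ U : Set V, (0 : V) ∈ U ∧ IsEnergy (frameE Fm (M.Xm prm)) U := by
  have hX := frame M hP
  obtain ⟨U, hU, hUo, h0⟩ := mem_nhds_iff.1 (frame_inj hX)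
  have hne : ∀ v ∈ U, ∀ y : V, y ≠ 0 → M.Xm prm v y ≠ 0 := by
    intro v hv y hy h
    apply hy
    have hi : Function.Injective (M.Xm prm v) := hU hv
    apply hi
    rw [h, map_zero]
  refine ⟨U, h0, hUo, ?_, ?_⟩
  · have h1 : ContDiff ℝ ∞ (fun z : V × V => M.Xm prm z.1 z.2) :=
      (hX.smooth_m.comp contDiff_fst).clm_apply contDiff_snd
    have h2 : ContDiffOn ℝ ∞ (fun z : V × V => Fm (M.Xm prm z.1 z.2)) (U ×ˢ {y | y ≠ 0}) := by
      apply hF.smooth.comp h1.contDiffOn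
      rintro ⟨v, y⟩ ⟨hv, hy⟩
      exact hne v hv y hy
    exact (h2.pow 2).div_const 2
  · intro v hv y u hy hu
    rw [lg_frame hF (M.Xm prm) (hne v hv y hy)]
    exact hF.conv _ _ (hne v hv y hy) (hne v hv u hu)

theorem pull_frame (R : RepModel M W) {prm : 𝔸 →L[ℝ] V} {prh : 𝔸 →L[ℝ] H} (hP : M.IsProj prm prh)
    {F : W → W → ℝ}
    (hinv : ∀ v x, F (R.ρ (M.sec v) R.w0) (R.ρ (M.sec v) (R.tau x)) = F R.w0 (R.tau x)) (v y : V) :
    F (R.psi 1 v) (fderiv ℝ (R.psi 1) v y) = F R.w0 (R.tau (M.Xm prm v y)) := by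
  rw [psi_fderiv R hP, one_mul]
  have h1 : R.psi 1 v = R.ρ (M.sec v) R.w0 := by
    unfold RepModel.psi
    rw [one_mul]
  rw [h1]
  exact hinv v _

theorem psi_param (R : RepModel M W) {prm : 𝔸 →L[ℝ] V} {prh : 𝔸 →L[ℝ] H} (hP : M.IsProj prm prh)
    {Ms : Set W} (hM : ∀ v, R.ρ (M.sec v) R.w0 ∈ Ms) (e : V' ≃L[ℝ] V) :
    ∃ U0 : Set V, (0 : V) ∈ U0 ∧ IsParam Ms (e ⁻¹' U0) (R.psi 1 ∘ e) := by
  obtain ⟨U0, hU, hUo, h0⟩ := mem_nhds_iff.1 (psi_inj R hP (g := 1) (g' := 1) (one_mul 1))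
  refine ⟨U0, h0, hUo.preimage e.continuous, ?_, ?_, ?_⟩
  · exact ((psi_smooth R 1).comp e.contDiff).contDiffOn
  · intro v _
    have h1 : (R.psi 1 ∘ e) v = R.ρ (M.sec (e v)) R.w0 := by
      simp only [Function.comp_apply, RepModel.psi]
      rw [one_mul]
    rw [h1]
    exact hM _
  · intro v hv
    rw [e.comp_right_fderiv]
    have h1 : Function.Injective (fderiv ℝ (R.psi 1) (e v)) := hU hv
    exact h1.comp e.injective

theorem C3_pull (R : RepModel M W) {prm : 𝔸 →L[ℝ] V} {prh : 𝔸 →L[ℝ] H} (hP : M.IsProj prm prh)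
    {F : W → W → ℝ}
    (hinv : ∀ v x, F (R.ρ (M.sec v) R.w0) (R.ρ (M.sec v) (R.tau x)) = F R.w0 (R.tau x))
    (e : V' ≃L[ℝ] V) (v y : V') :
    F ((R.psi 1 ∘ e) v) (fderiv ℝ (R.psi 1 ∘ e) v y) = F R.w0 (R.tau (M.Xm prm (e v) (e y))) := by
  rw [e.comp_right_fderiv]
  exact pull_frame R hP hinv (e v) (e y)

theorem C3_zero (R : RepModel M W) {prm : 𝔸 →L[ℝ] V} {prh : 𝔸 →L[ℝ] H} (hP : M.IsProj prm prh)
    (e : V' ≃L[ℝ] V) :
    (R.psi 1 ∘ e) 0 = R.w0 ∧ ∀ y, fderiv ℝ (R.psi 1 ∘ e) 0 y = R.tau (e y) := by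
  constructor
  · simp only [Function.comp_apply, map_zero]
    rw [psi_zero, R.one]
    rfl
  · intro y
    rw [e.comp_right_fderiv]
    change fderiv ℝ (R.psi 1) (e 0) (e y) = _
    rw [map_zero, psi_fderiv R hP, (frame M hP).zero_m, sec_zero, one_mul, R.one]
    rfl

theorem C3_fund {Fm : V → ℝ} (hs : ContDiffOn ℝ ∞ Fm {x | x ≠ 0}) (e : V' ≃L[ℝ] V) {E : V' → V' → ℝ}
    (hE : ∀ y, E 0 y = Fm (e y) ^ 2 / 2) {y : V'} (hy : y ≠ 0) (a b : V') :
    lg E 0 y a b = fund Fm (e y) (e a) (e b) := by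
  have hey : e y ≠ 0 := by simpa using hy
  have h1 : ContDiffOn ℝ ∞ (fun z => Fm z ^ 2 / 2) {x : V | x ≠ 0} := (hs.pow 2).div_const 2
  have h2 : ContDiffAt ℝ ∞ (fun z => Fm z ^ 2 / 2) (e y) := h1.contDiffAt (isOpen_ne.mem_nhds hey)
  have h3 : ContDiffAt ℝ ∞ (fderiv ℝ (fun z => Fm z ^ 2 / 2)) (e y) :=
    h2.fderiv_right (m := ∞) (by simp)
  have h4 : HasFDerivAt (fderiv ℝ (fun z => Fm z ^ 2 / 2)) (fund Fm (e y)) (e y) :=
    (h3.differentiableAt (by simp)).hasFDerivAt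
  have h5 : ∀ y', fderiv ℝ (E 0) y' =
      (fderiv ℝ (fun z => Fm z ^ 2 / 2) (e y')).comp (e : V' →L[ℝ] V) := by
    intro y'
    have h6 : E 0 = (fun z => Fm z ^ 2 / 2) ∘ e := by
      funext y
      exact hE y
    rw [h6, e.comp_right_fderiv]
  have h7 : HasFDerivAt (fun y' => fderiv ℝ (fun z => Fm z ^ 2 / 2) (e y'))
      ((fund Fm (e y)).comp (e : V' →L[ℝ] V)) y := h4.comp y e.hasFDerivAt
  have h8 := h7.clm_comp (hasFDerivAt_const (e : V' →L[ℝ] V) y)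
  unfold lg
  simp_rw [h5]
  rw [h8.fderiv]
  simp

theorem norm_of_finsler (R : RepModel M W) {prm : 𝔸 →L[ℝ] V} {prh : 𝔸 →L[ℝ] H}
    (hP : M.IsProj prm prh) (hV : Module.finrank ℝ V' = Module.finrank ℝ V)
    {Ms : Set W} (hM : ∀ v, R.ρ (M.sec v) R.w0 ∈ Ms) {F : W → W → ℝ} (hF : IsFinslerOn V' Ms F)
    (hinv : ∀ v x, F (R.ρ (M.sec v) R.w0) (R.ρ (M.sec v) (R.tau x)) = F R.w0 (R.tau x)) :
    IsMinkowski fun x => F R.w0 (R.tau x) := by
  obtain e : V' ≃L[ℝ] V := ContinuousLinearEquiv.ofFinrankEq hV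
  obtain ⟨U0, h0, hU⟩ := psi_param R hP hM e
  have h0' : (0 : V') ∈ e ⁻¹' U0 := by
    change e 0 ∈ U0
    rwa [map_zero]
  obtain ⟨hz, hd⟩ := C3_zero R hP e
  have hs : ContDiffOn ℝ ∞ (fun x => F R.w0 (R.tau x)) {x : V | x ≠ 0} := by
    have h1 := hF.smooth _ _ hU
    have h2 : ContDiffOn ℝ ∞ (fun x : V => ((0 : V'), e.symm x)) {x : V | x ≠ 0} :=
      (contDiff_const.prodMk e.symm.contDiff).contDiffOn
    have h3 := h1.comp h2 (by
      intro x hx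
      refine ⟨h0', ?_⟩
      change e.symm x ≠ 0
      simpa using hx)
    refine h3.congr ?_
    intro x _
    change F R.w0 (R.tau x) = F ((R.psi 1 ∘ e) 0) (fderiv ℝ (R.psi 1 ∘ e) 0 (e.symm x))
    rw [hz, hd, e.apply_symm_apply]
  refine ⟨?_, ?_, ?_, hs, ?_⟩
  · have h1 := hF.smul _ _ hU 0 h0' 0 0 le_rfl
    rw [zero_smul, zero_mul, hz] at h1
    rw [map_zero]
    exact h1
  · intro x hx
    have h1 := hF.pos _ _ hU 0 h0' (e.symm x) (by simpa using hx)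
    rwa [hz, hd, e.apply_symm_apply] at h1
  · intro c x hc
    have h1 := hF.smul _ _ hU 0 h0' (e.symm x) c hc
    rw [hz, hd, e.apply_symm_apply] at h1
    rw [map_smul]
    exact h1
  · intro x v hx hv
    have h1 := hF.conv _ _ hU 0 h0' (e.symm x) (e.symm v) (by simpa using hx) (by simpa using hv)
    have h2 := C3_fund hs e (E := pullE F (R.psi 1 ∘ e)) (by
      intro y
      unfold pullE
      rw [hz, hd]) (y := e.symm x) (by simpa using hx) (e.symm v) (e.symm v)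
    rw [h2, e.apply_symm_apply, e.apply_symm_apply] at h1
    exact h1

theorem posFlag_of_finsler (R : RepModel M W) {prm : 𝔸 →L[ℝ] V} {prh : 𝔸 →L[ℝ] H}
    (hP : M.IsProj prm prh) (hV : Module.finrank ℝ V' = Module.finrank ℝ V)
    {Ms : Set W} (hM : ∀ v, R.ρ (M.sec v) R.w0 ∈ Ms) {F : W → W → ℝ} (hF : IsFinslerOn V' Ms F)
    (hinv : ∀ v x, F (R.ρ (M.sec v) R.w0) (R.ρ (M.sec v) (R.tau x)) = F R.w0 (R.tau x))
    (hH : ∀ A x, x ≠ 0 →
      fderiv ℝ (fun z => (fun x => F R.w0 (R.tau x)) z ^ 2 / 2) x (M.D.act A x) = 0)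
    (hpos : PosFlagOn V' Ms F) : PosFlag M.D fun x => F R.w0 (R.tau x) := by
  intro x w hxw
  have hMink := norm_of_finsler R hP hV hM hF hinv
  obtain e : V' ≃L[ℝ] V := ContinuousLinearEquiv.ofFinrankEq hV
  obtain ⟨U0, h0, hU⟩ := psi_param R hP hM e
  have h0' : (0 : V') ∈ e ⁻¹' U0 := by
    change e 0 ∈ U0
    rwa [map_zero]
  have hx : x ≠ 0 := by
    have := hxw.ne_zero 0
    simpa using this
  have hli : LinearIndependent ℝ ![e.symm x, e.symm w] := by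
    have h1 := hxw.map' (e.symm.toLinearEquiv : V →ₗ[ℝ] V') (LinearEquiv.ker _)
    have h2 : ((e.symm.toLinearEquiv : V →ₗ[ℝ] V') ∘ ![x, w]) = ![e.symm x, e.symm w] := by
      funext i
      fin_cases i <;> rfl
    rwa [h2] at h1
  have h1 := hpos _ _ hU 0 h0' (e.symm x) (e.symm w) hli
  have h2 : pullE F (R.psi 1 ∘ e) =
      compE (frameE (fun x => F R.w0 (R.tau x)) (M.Xm prm)) e := by
    funext v y
    unfold pullE compE frameE
    rw [C3_pull R hP hinv e v y, e.fderiv]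
    rfl
  obtain ⟨U, hU0, hUE⟩ := frame_energy hP hMink
  have h3 := lK_comp hUE (φ := e) (x := 0) e.contDiff.contDiffAt
    (by rw [e.fderiv]; exact e.bijective) (by rwa [map_zero]) (y := e.symm x) (by simpa using hx)
    (e.symm w)
  rw [h2, h3, e.fderiv] at h1
  have h4 := lK_frame hMink hH (frame M hP) hx w
  rw [← h4]
  have h5 : lK (frameE (fun x => F R.w0 (R.tau x)) (M.Xm prm)) (e 0)
      ((e : V' →L[ℝ] V) (e.symm x)) ((e : V' →L[ℝ] V) (e.symm w)) =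
      lK (frameE (fun x => F R.w0 (R.tau x)) (M.Xm prm)) 0 x w := by
    rw [map_zero]
    simp
  rw [← h5]
  exact h1

end HG
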