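import Pool.Agent.HG.D1
import Pool.Agent.HG.C3

/-! MODULE D2 (diff 2-3): the invariant metric on the orbit given by a norm on `𝔪`.

Copy the proofs of `HFinG/P5.lean` (`FS_eq`, `FS_inv`, `FS_psi`, `FS_smul`), `HFinG/P7.lean` (`FS_near`, `pullE_eq`,
`FS_smoothAt`) and `HFinG/Final.lean` (`finsler_of_norm`, `posFlag_of_norm`, `param_exists`).
* `FS_eq`: the chosen `g₀` (inverse `g₀'`) and `g` both map `w0` to `z`; `b = g₀' * g ∈ G` fixes `w0` and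
  `ρ g₀' (ρ g (tau x)) = ρ b (tau x)`, so the value is `Fm (c (ρ b (tau x))) = Fm x` by `hiso`.
* `FS_psi`: `psi g v = ρ (g sec v) w0`, `Dpsi(v) y = ρ (g sec v) (tau (Xm v y))` (`psi_fderiv`), `FS_eq`.
-/

namespace HG

open HFinG
open scoped ContDiff Topology

variable {𝔸 V H : Type*} [NormedRing 𝔸] [NormedAlgebra ℝ 𝔸] [CompleteSpace 𝔸]
  [NormedAddCommGroup V] [NormedSpace ℝ V] [NormedAddCommGroup H] [NormedSpace ℝ H]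
  [FiniteDimensional ℝ V] [FiniteDimensional ℝ H]
  {M : MatModel 𝔸 V H} {W : Type*} [NormedAddCommGroup W] [NormedSpace ℝ W] [FiniteDimensional ℝ W]
  {V' : Type*} [NormedAddCommGroup V'] [NormedSpace ℝ V'] [FiniteDimensional ℝ V']

open Classical in
/-- The `G`-invariant extension of a norm `Fm` on `𝔪` to the orbit of `w0`. -/
noncomputable def FS (R : RepModel M W) (G : Set 𝔸) (Fm : V → ℝ) (z w : W) : ℝ :=
  if h : ∃ g : 𝔸 × 𝔸, g.1 ∈ G ∧ g.2 ∈ G ∧ g.1 * g.2 = 1 ∧ g.2 * g.1 = 1 ∧ R.ρ g.1 R.w0 = z then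
    Fm (R.c (R.ρ h.choose.2 w)) else 0

theorem FS_eq (R : RepModel M W) {G : Set 𝔸} {Ms : Set W} (hG : IsOrbit R G Ms) {Fm : V → ℝ}
    (hiso : ∀ g ∈ G, R.ρ g R.w0 = R.w0 → ∀ x, Fm (R.c (R.ρ g (R.tau x))) = Fm x)
    {g : 𝔸} (hg : g ∈ G) (x : V) : FS R G Fm (R.ρ g R.w0) (R.ρ g (R.tau x)) = Fm x := by
  have h : ∃ p : 𝔸 × 𝔸, p.1 ∈ G ∧ p.2 ∈ G ∧ p.1 * p.2 = 1 ∧ p.2 * p.1 = 1 ∧
      R.ρ p.1 R.w0 = R.ρ g R.w0 := by
    obtain ⟨g', h1, h2, h3⟩ := hG.inv_mem g hg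
    exact ⟨(g, g'), hg, h1, h2, h3, rfl⟩
  unfold FS
  rw [dif_pos h]
  obtain ⟨h1, h2, h3, h4, h5⟩ := h.choose_spec
  generalize h.choose = p at h1 h2 h3 h4 h5
  have e1 : R.ρ p.2 (R.ρ g (R.tau x)) = R.ρ (p.2 * g) (R.tau x) := by
    rw [R.mul]; rfl
  have e2 : R.ρ (p.2 * g) R.w0 = R.w0 := by
    have : R.ρ (p.2 * g) R.w0 = R.ρ p.2 (R.ρ g R.w0) := by rw [R.mul]; rfl
    rw [this, ← h5, rho_inv R h4]
  rw [e1, hiso _ (hG.mul_mem _ h2 _ hg) e2]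

theorem FS_inv (R : RepModel M W) {G : Set 𝔸} {Ms : Set W} (hG : IsOrbit R G Ms) {Fm : V → ℝ}
    (hiso : ∀ g ∈ G, R.ρ g R.w0 = R.w0 → ∀ x, Fm (R.c (R.ρ g (R.tau x))) = Fm x)
    {g k : 𝔸} (hg : g ∈ G) (hk : k ∈ G) (x : V) :
    FS R G Fm (R.ρ g (R.ρ k R.w0)) (R.ρ g (R.ρ k (R.tau x))) =
      FS R G Fm (R.ρ k R.w0) (R.ρ k (R.tau x)) := by
  have e1 : ∀ w, R.ρ g (R.ρ k w) = R.ρ (g * k) w := fun w => by rw [R.mul]; rfl
  rw [e1, e1, FS_eq R hG hiso (hG.mul_mem _ hg _ hk), FS_eq R hG hiso hk]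

theorem FS_neg (R : RepModel M W) (G : Set 𝔸) {Fm : V → ℝ} (h : ∀ x, Fm (-x) = Fm x) (z w : W) :
    FS R G Fm z (-w) = FS R G Fm z w := by
  unfold FS
  split_ifs with h1
  · rw [map_neg, map_neg, h]
  · rfl

theorem D2_smul (R : RepModel M W) (G : Set 𝔸) {Fm : V → ℝ} (hF : IsMinkowski Fm) (z w : W)
    (c : ℝ) (hc : 0 ≤ c) : FS R G Fm z (c • w) = c * FS R G Fm z w := by
  unfold FS
  split_ifs with h1
  · rw [map_smul, map_smul, hF.smul c _ hc]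
  · rw [mul_zero]

theorem D2_psi (R : RepModel M W) {prm : 𝔸 →L[ℝ] V} {prh : 𝔸 →L[ℝ] H}
    (hP : M.IsProj prm prh) {G : Set 𝔸} {Ms : Set W} (hG : IsOrbit R G Ms) {Fm : V → ℝ}
    (hiso : ∀ g ∈ G, R.ρ g R.w0 = R.w0 → ∀ x, Fm (R.c (R.ρ g (R.tau x))) = Fm x)
    {g : 𝔸} (hg : g ∈ G) (v y : V) :
    FS R G Fm (R.psi g v) (fderiv ℝ (R.psi g) v y) = Fm (M.Xm prm v y) := by
  rw [psi_fderiv R hP]
  exact FS_eq R hG hiso (hG.mul_mem _ hg _ (hG.sec_mem v)) _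

theorem D2_near (R : RepModel M W) {prm : 𝔸 →L[ℝ] V} {prh : 𝔸 →L[ℝ] H}
    (hP : M.IsProj prm prh) {G : Set 𝔸} {Ms : Set W} (hG : IsOrbit R G Ms) {Fm : V → ℝ}
    (hiso : ∀ g ∈ G, R.ρ g R.w0 = R.w0 → ∀ x, Fm (R.c (R.ρ g (R.tau x))) = Fm x)
    {g : 𝔸} (hg : g ∈ G) {ψ : V' → W} {φ : V' → V} {v : V'} (hφ : ContDiffAt ℝ ∞ φ v)
    (h : ∀ᶠ v' in 𝓝 v, ψ v' = R.psi g (φ v')) :
    ∀ᶠ v' in 𝓝 v, ∀ y, FS R G Fm (ψ v') (fderiv ℝ ψ v' y) =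
      Fm (M.Xm prm (φ v') (fderiv ℝ φ v' y)) := by
  have h1 : ∀ᶠ v' in 𝓝 v, ContDiffAt ℝ 1 φ v' :=
    (hφ.of_le (by exact_mod_cast le_top)).eventually (by decide)
  filter_upwards [h.eventually_nhds, h1] with v' h2 h3 y
  have hd : DifferentiableAt ℝ φ v' := h3.differentiableAt (by norm_num)
  have e1 : fderiv ℝ ψ v' = (fderiv ℝ (R.psi g) (φ v')).comp (fderiv ℝ φ v') := by
    have e2 : ψ =ᶠ[𝓝 v'] (R.psi g ∘ φ) := h2
    rw [e2.fderiv_eq]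
    exact fderiv_comp v' ((psi_smooth R g).differentiable (by simp) _) hd
  rw [e1, h2.self_of_nhds, ContinuousLinearMap.comp_apply]
  exact D2_psi R hP hG hiso hg (φ v') (fderiv ℝ φ v' y)

theorem D2_pullE (R : RepModel M W) {prm : 𝔸 →L[ℝ] V} {prh : 𝔸 →L[ℝ] H}
    (hP : M.IsProj prm prh) {G : Set 𝔸} {Ms : Set W} (hG : IsOrbit R G Ms) {Fm : V → ℝ}
    (hiso : ∀ g ∈ G, R.ρ g R.w0 = R.w0 → ∀ x, Fm (R.c (R.ρ g (R.tau x))) = Fm x)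
    {g : 𝔸} (hg : g ∈ G) {ψ : V' → W} {φ : V' → V} {v : V'} (hφ : ContDiffAt ℝ ∞ φ v)
    (h : ∀ᶠ v' in 𝓝 v, ψ v' = R.psi g (φ v')) :
    ∀ᶠ v' in 𝓝 v, pullE (FS R G Fm) ψ v' = compE (frameE Fm (M.Xm prm)) φ v' := by
  filter_upwards [D2_near R hP hG hiso hg hφ h] with v' h1
  funext y
  unfold pullE compE frameE
  rw [h1 y]

theorem D2_smoothAt (R : RepModel M W) {prm : 𝔸 →L[ℝ] V} {prh : 𝔸 →L[ℝ] H}
    (hP : M.IsProj prm prh) {G : Set 𝔸} {Ms : Set W} (hG : IsOrbit R G Ms) {Fm : V → ℝ}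
    (hF : IsMinkowski Fm)
    (hiso : ∀ g ∈ G, R.ρ g R.w0 = R.w0 → ∀ x, Fm (R.c (R.ρ g (R.tau x))) = Fm x)
    {g : 𝔸} (hg : g ∈ G) {ψ : V' → W} {φ : V' → V} {v : V'} (hφ : ContDiffAt ℝ ∞ φ v)
    (h0 : φ v = 0) (hi : Function.Bijective (fderiv ℝ φ v))
    (h : ∀ᶠ v' in 𝓝 v, ψ v' = R.psi g (φ v')) {y : V'} (hy : y ≠ 0) :
    ContDiffAt ℝ ∞ (fun z : V' × V' => FS R G Fm (ψ z.1) (fderiv ℝ ψ z.1 z.2)) (v, y) := by
  have hX := frame M hP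
  have e : (fun z : V' × V' => FS R G Fm (ψ z.1) (fderiv ℝ ψ z.1 z.2)) =ᶠ[𝓝 (v, y)]
      (fun z : V' × V' => Fm (M.Xm prm (φ z.1) (fderiv ℝ φ z.1 z.2))) := by
    have h1 := (continuous_fst.tendsto (v, y)).eventually (D2_near R hP hG hiso hg hφ h)
    filter_upwards [h1] with z hz
    exact hz z.2
  refine ContDiffAt.congr_of_eventuallyEq ?_ e
  have hy' : fderiv ℝ φ v y ≠ 0 := by
    intro hcon
    apply hy
    apply hi.1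
    rw [hcon, map_zero]
  have hval : M.Xm prm (φ v) (fderiv ℝ φ v y) = fderiv ℝ φ v y := by
    rw [h0, hX.zero_m]
  have hφ1 : ContDiffAt ℝ ∞ (fun z : V' × V' => φ z.1) (v, y) :=
    ContDiffAt.comp (v, y) (g := φ) (f := Prod.fst) hφ contDiffAt_fst
  have hφ2 : ContDiffAt ℝ ∞ (fderiv ℝ φ) v := hφ.fderiv_right (m := ∞) (by simp)
  have hφ3 : ContDiffAt ℝ ∞ (fun z : V' × V' => fderiv ℝ φ z.1) (v, y) :=
    ContDiffAt.comp (v, y) (g := fderiv ℝ φ) (f := Prod.fst) hφ2 contDiffAt_fst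
  have hφ4 : ContDiffAt ℝ ∞ (fun z : V' × V' => fderiv ℝ φ z.1 z.2) (v, y) :=
    hφ3.clm_apply contDiffAt_snd
  have hX1 : ContDiffAt ℝ ∞ (fun z : V' × V' => M.Xm prm (φ z.1)) (v, y) :=
    ContDiffAt.comp (v, y) (g := M.Xm prm) (f := fun z : V' × V' => φ z.1)
      hX.smooth_m.contDiffAt hφ1
  have hX2 : ContDiffAt ℝ ∞ (fun z : V' × V' => M.Xm prm (φ z.1) (fderiv ℝ φ z.1 z.2)) (v, y) :=
    hX1.clm_apply hφ4
  have hFm : ContDiffAt ℝ ∞ Fm (M.Xm prm (φ v) (fderiv ℝ φ v y)) := by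
    rw [hval]
    exact hF.smooth.contDiffAt (isOpen_ne.mem_nhds hy')
  exact ContDiffAt.comp (v, y) (g := Fm)
    (f := fun z : V' × V' => M.Xm prm (φ z.1) (fderiv ℝ φ z.1 z.2)) hFm hX2

theorem finsler_of_norm (R : RepModel M W) {prm : 𝔸 →L[ℝ] V} {prh : 𝔸 →L[ℝ] H}
    (hP : M.IsProj prm prh) (hV : Module.finrank ℝ V' = Module.finrank ℝ V)
    {G : Set 𝔸} {Ms : Set W} (hG : IsOrbit R G Ms) {Fm : V → ℝ} (hF : IsMinkowski Fm)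
    (hiso : ∀ g ∈ G, R.ρ g R.w0 = R.w0 → ∀ x, Fm (R.c (R.ρ g (R.tau x))) = Fm x) :
    IsFinslerOn V' Ms (FS R G Fm) := by
  have hX := frame M hP
  refine ⟨?_, ?_, ?_, ?_⟩
  · intro U ψ hψ v hv y hy
    obtain ⟨g, hg, φ, hφ, h0, hi, h⟩ := local_param R hP hG hV hψ hv
    rw [(D2_near R hP hG hiso hg hφ h).self_of_nhds y, h0, hX.zero_m]
    refine hF.pos _ fun h1 => hy (hi.1 ?_)
    rw [h1, map_zero]
  · intro U ψ hψ v hv y c hc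
    exact D2_smul R G hF _ _ c hc
  · rintro U ψ hψ ⟨v, y⟩ ⟨hv, hy⟩
    obtain ⟨g, hg, φ, hφ, h0, hi, h⟩ := local_param R hP hG hV hψ hv
    exact (D2_smoothAt R hP hG hF hiso hg hφ h0 hi h hy).contDiffWithinAt
  · intro U ψ hψ v hv y u hy hu
    obtain ⟨g, hg, φ, hφ, h0, hi, h⟩ := local_param R hP hG hV hψ hv
    obtain ⟨U0, hU0, hE⟩ := frame_energy hP hF
    rw [lg_congr (D2_pullE R hP hG hiso hg hφ h) y,
      lg_comp hE (hφ.of_le (WithTop.coe_le_coe.mpr le_top)) hi (by rw [h0]; exact hU0) hy]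
    refine hE.conv _ (by rw [h0]; exact hU0) _ _ ?_ ?_
    · exact fun h1 => hy (hi.1 (by rw [h1, map_zero]))
    · exact fun h1 => hu (hi.1 (by rw [h1, map_zero]))

theorem posFlag_of_norm (R : RepModel M W) {prm : 𝔸 →L[ℝ] V} {prh : 𝔸 →L[ℝ] H}
    (hP : M.IsProj prm prh) (hV : Module.finrank ℝ V' = Module.finrank ℝ V)
    {G : Set 𝔸} {Ms : Set W} (hG : IsOrbit R G Ms) {Fm : V → ℝ} (hF : IsMinkowski Fm)
    (hiso : ∀ g ∈ G, R.ρ g R.w0 = R.w0 → ∀ x, Fm (R.c (R.ρ g (R.tau x))) = Fm x)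
    (hinv : ∀ A x, x ≠ 0 → fderiv ℝ (fun z => Fm z ^ 2 / 2) x (M.D.act A x) = 0)
    (hpos : PosFlag M.D Fm) : PosFlagOn V' Ms (FS R G Fm) := by
  intro U ψ hψ v hv y w hyw
  obtain ⟨g, hg, φ, hφ, h0, hi, h⟩ := local_param R hP hG hV hψ hv
  obtain ⟨U0, hU0, hE⟩ := frame_energy hP hF
  have hy : y ≠ 0 := by simpa using hyw.ne_zero 0
  rw [lK_congr (D2_pullE R hP hG hiso hg hφ h) y w, lK_comp hE hφ hi (by rw [h0]; exact hU0) hy, h0,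
    lK_frame hF hinv (frame M hP) (fun h1 => hy (hi.1 (by rw [h1, map_zero])))]
  apply hpos
  rw [LinearIndependent.pair_iff] at hyw ⊢
  intro s t hst
  apply hyw s t
  apply hi.1
  rw [map_add, map_smul, map_smul, map_zero]
  exact hst

theorem param_exists (R : RepModel M W) {prm : 𝔸 →L[ℝ] V} {prh : 𝔸 →L[ℝ] H}
    (hP : M.IsProj prm prh) (hV : Module.finrank ℝ V' = Module.finrank ℝ V)
    {G : Set 𝔸} {Ms : Set W} (hG : IsOrbit R G Ms) {z : W} (hz : z ∈ Ms) :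
    ∃ (U : Set V') (ψ : V' → W), IsParam Ms U ψ ∧ z ∈ ψ '' U := by
  obtain ⟨g, hg, hgz⟩ := (hG.orbit z).1 hz
  obtain ⟨g', hg', h1, h2⟩ := hG.inv_mem g hg
  obtain ⟨U0, hU0, hUo, h0⟩ := mem_nhds_iff.1 (psi_inj R hP h2)
  let e : V' ≃L[ℝ] V := ContinuousLinearEquiv.ofFinrankEq hV
  refine ⟨e ⁻¹' U0, R.psi g ∘ e, ⟨hUo.preimage e.continuous, ?_, ?_, ?_⟩, ?_⟩
  · exact ((psi_smooth R g).comp e.contDiff).contDiffOn
  · intro v hv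
    exact (hG.orbit _).2 ⟨g * M.sec (e v), hG.mul_mem _ hg _ (hG.sec_mem _), rfl⟩
  · intro v hv
    have hd : DifferentiableAt ℝ (R.psi g) (e v) :=
      ((psi_smooth R g).contDiffAt (x := e v)).differentiableAt (by simp)
    rw [fderiv_comp v hd e.differentiableAt, e.fderiv]
    have hv' : Function.Injective (fderiv ℝ (R.psi g) (e v)) := hU0 hv
    exact hv'.comp e.injective
  · refine ⟨0, ?_, ?_⟩
    · rw [Set.mem_preimage, map_zero]; exact h0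
    · rw [Function.comp_apply, map_zero, psi_zero, hgz]

end HG
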