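import Pool.Agent.HG.Defs

/-! MODULE A1 (diff 1-2): basic facts about `exp` in a Banach algebra.

* `exp_smooth`: `NormedSpace.exp_analytic` (over `ℝ`) and `AnalyticAt.contDiffAt`.
* `exp_fderiv_self`: `t ↦ exp (t x)` has derivative `exp (t x) x` (`hasDerivAt_exp_smul_const`), and by
  the chain rule (exp is differentiable at `x`) its derivative at `t = 1` is `fderiv ℝ exp x x`.
* `exp_fderiv_zero`: `hasFDerivAt_exp_zero`.
* `ode_const`: if `c : ℝ → Z` has derivative `0` everywhere then `c 1 = c 0` (`is_const_of_deriv_eq_zero`).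
-/

namespace HG

open scoped ContDiff

variable {𝔸 : Type*} [NormedRing 𝔸] [NormedAlgebra ℝ 𝔸] [CompleteSpace 𝔸]

theorem exp_smooth : ContDiff ℝ ∞ (NormedSpace.exp : 𝔸 → 𝔸) := by
  rw [contDiff_iff_contDiffAt]
  intro x
  exact (NormedSpace.exp_analytic (𝕂 := ℝ) x).contDiffAt

theorem A1_add {x y : 𝔸} (h : Commute x y) :
    NormedSpace.exp (x + y) = NormedSpace.exp x * NormedSpace.exp y :=
  NormedSpace.exp_add_of_commute_of_mem_ball (𝕂 := ℝ) h
    ((NormedSpace.expSeries_radius_eq_top ℝ 𝔸).symm ▸ edist_lt_top _ _)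
    ((NormedSpace.expSeries_radius_eq_top ℝ 𝔸).symm ▸ edist_lt_top _ _)

theorem exp_neg_mul (x : 𝔸) : NormedSpace.exp (-x) * NormedSpace.exp x = 1 := by
  rw [← A1_add (Commute.refl x).neg_left, neg_add_cancel, NormedSpace.exp_zero]

theorem exp_mul_neg (x : 𝔸) : NormedSpace.exp x * NormedSpace.exp (-x) = 1 := by
  rw [← A1_add (Commute.refl x).neg_right, add_neg_cancel, NormedSpace.exp_zero]

theorem exp_fderiv_self (x : 𝔸) :
    fderiv ℝ (NormedSpace.exp : 𝔸 → 𝔸) x x = NormedSpace.exp x * x := by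
  have h1 : HasDerivAt (fun t : ℝ => NormedSpace.exp (t • x)) (NormedSpace.exp ((1 : ℝ) • x) * x) 1 :=
    hasDerivAt_exp_smul_const x 1
  have h2 : HasFDerivAt (NormedSpace.exp : 𝔸 → 𝔸) (fderiv ℝ (NormedSpace.exp : 𝔸 → 𝔸) x)
      ((1 : ℝ) • x) := by
    rw [one_smul]
    exact (exp_smooth.differentiable (by simp) x).hasFDerivAt
  have h3 : HasDerivAt (fun t : ℝ => t • x) x 1 := by
    simpa using (hasDerivAt_id (1 : ℝ)).smul_const x
  have h4 := h2.comp_hasDerivAt (1 : ℝ) h3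
  have h5 := h4.unique h1
  rwa [one_smul] at h5

theorem exp_fderiv_zero (y : 𝔸) : fderiv ℝ (NormedSpace.exp : 𝔸 → 𝔸) 0 y = y := by
  rw [(hasFDerivAt_exp_zero (𝕂 := ℝ) (𝔸 := 𝔸)).fderiv]
  rfl

/-- derivative of `t ↦ exp (t x)` -/
theorem exp_hasDerivAt (x : 𝔸) (t : ℝ) :
    HasDerivAt (fun t : ℝ => NormedSpace.exp (t • x)) (NormedSpace.exp (t • x) * x) t :=
  hasDerivAt_exp_smul_const x t

/-- the same, with the factor on the left -/
theorem exp_hasDerivAt' (x : 𝔸) (t : ℝ) :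
    HasDerivAt (fun t : ℝ => NormedSpace.exp (t • x)) (x * NormedSpace.exp (t • x)) t :=
  hasDerivAt_exp_smul_const' x t

theorem ode_const {Z : Type*} [NormedAddCommGroup Z] [NormedSpace ℝ Z] {c : ℝ → Z}
    (h : ∀ t, HasDerivAt c 0 t) (t s : ℝ) : c t = c s :=
  is_const_of_deriv_eq_zero (fun t => (h t).differentiableAt) (fun t => (h t).deriv) t s

end HG
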