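import Pool.Agent.HG.A1

/-! MODULE A2 (diff 2): `Ad (exp u)` preserves `𝔤`.

`inc_br`: the bracket of `𝔤 = V × H` in coordinates, a (continuous) bilinear map `brT M u : V × H →L V × H`
(here `V`, `H` are finite-dimensional, so `LinearMap.toContinuousLinearMap` can be used).
`ad_exp_mem`: let `T p = -[u, p]` (`T : V × H →L[ℝ] V × H`), `z t = exp (t T) p ∈ V × H`
(`NormedSpace.exp` in the Banach algebra `V × H →L[ℝ] V × H`).  Then
`c t = exp (t (inc u)) * inc (z t) * exp (-t (inc u))` has derivative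
`exp(t u)(u z - z u + z')exp(-t u) = 0`, so `c 1 = c 0 = inc p` and
`exp (-inc u) * inc p * exp (inc u) = inc (z 1)` (multiply by `exp (∓ inc u)`).
-/

namespace HG

open HFinG
open scoped ContDiff

variable {𝔸 V H : Type*} [NormedRing 𝔸] [NormedAlgebra ℝ 𝔸] [CompleteSpace 𝔸]
  [NormedAddCommGroup V] [NormedSpace ℝ V] [FiniteDimensional ℝ V]
  [NormedAddCommGroup H] [NormedSpace ℝ H] [FiniteDimensional ℝ H]

theorem inc_br (M : MatModel 𝔸 V H) (u p : V × H) : M.inc u * M.inc p - M.inc p * M.inc u =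
    M.inc (M.D.mm u.1 p.1 + M.D.act u.2 p.1 - M.D.act p.2 u.1, M.D.mh u.1 p.1 + M.hh u.2 p.2) := by
  rw [M.inc_apply, M.inc_apply, M.inc_apply]
  have h1 := M.comm_iota u.1 p.1
  have h2 := M.comm_hat u.2 p.1
  have h3 := M.comm_hat p.2 u.1
  have h4 := M.comm_hh u.2 p.2
  simp only [map_add, map_sub]
  rw [← h2, ← h3, ← h4]
  have h1' : M.iota (M.D.mm u.1 p.1) = M.iota u.1 * M.iota p.1 - M.iota p.1 * M.iota u.1 -
      M.hat (M.D.mh u.1 p.1) := by
    rw [h1]; abel
  rw [h1']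
  noncomm_ring

/-- the continuous linear map `p ↦ -[u, p]` -/
noncomputable def A2_T (M : MatModel 𝔸 V H) (u : V × H) : V × H →L[ℝ] V × H :=
  -(((M.D.mm u.1).comp (ContinuousLinearMap.fst ℝ V H) +
      (M.D.act u.2).comp (ContinuousLinearMap.fst ℝ V H) -
      (M.D.act.flip u.1).comp (ContinuousLinearMap.snd ℝ V H)).prod
    ((M.D.mh u.1).comp (ContinuousLinearMap.fst ℝ V H) +
      (M.hh u.2).comp (ContinuousLinearMap.snd ℝ V H)))

theorem A2_T_spec (M : MatModel 𝔸 V H) (u p : V × H) :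
    M.inc u * M.inc p - M.inc p * M.inc u = -M.inc (A2_T M u p) := by
  rw [inc_br, ← map_neg]
  congr 1
  simp [A2_T]

theorem A2_const (M : MatModel 𝔸 V H) (u p : V × H) :
    ∃ p' : V × H, NormedSpace.exp (M.inc u) * M.inc p' * NormedSpace.exp (-M.inc u) = M.inc p := by
  let T := A2_T M u
  let z : ℝ → V × H := fun t => NormedSpace.exp (t • T) p
  have hz : ∀ t, HasDerivAt z (T (z t)) t := by
    intro t
    have h := exp_hasDerivAt' T t
    have h2 := (ContinuousLinearMap.apply ℝ (V × H) p).hasFDerivAt.comp_hasDerivAt t h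
    exact h2
  have h1 : ∀ t, HasDerivAt (fun t => NormedSpace.exp (t • M.inc u)) (NormedSpace.exp (t • M.inc u) *
    M.inc u) t := fun t => exp_hasDerivAt _ t
  have h2 : ∀ t, HasDerivAt (fun t => NormedSpace.exp (t • (-M.inc u)))
    ((-M.inc u) * NormedSpace.exp (t • (-M.inc u))) t := fun t => exp_hasDerivAt' _ t
  have h3 : ∀ t, HasDerivAt (fun t => M.inc (z t)) (M.inc (T (z t))) t := fun t =>
    M.inc.hasFDerivAt.comp_hasDerivAt t (hz t)
  have h4 : ∀ t, HasDerivAt (fun t => NormedSpace.exp (t • M.inc u) * M.inc (z t) *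
      NormedSpace.exp (t • (-M.inc u))) 0 t := by
    intro t
    have h5 := ((h1 t).mul (h3 t)).mul (h2 t)
    have h6 : M.inc u * M.inc (z t) - M.inc (z t) * M.inc u = -M.inc (T (z t)) :=
      A2_T_spec M u (z t)
    have h7 : M.inc (T (z t)) = M.inc (z t) * M.inc u - M.inc u * M.inc (z t) := by
      rw [← neg_neg (M.inc (T (z t))), ← h6, neg_sub]
    have h8 : (0 : 𝔸) = (NormedSpace.exp (t • M.inc u) * M.inc u * M.inc (z t) +
        NormedSpace.exp (t • M.inc u) * M.inc (T (z t))) * NormedSpace.exp (t • -M.inc u) +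
        NormedSpace.exp (t • M.inc u) * M.inc (z t) *
          (-M.inc u * NormedSpace.exp (t • -M.inc u)) := by
      rw [h7]
      noncomm_ring
    rw [h8]
    exact h5
  have h5 := ode_const h4 1 0
  refine ⟨z 1, ?_⟩
  simpa [z] using h5

theorem ad_exp_mem (M : MatModel 𝔸 V H) (u p : V × H) :
    ∃ p' : V × H, NormedSpace.exp (-M.inc u) * M.inc p * NormedSpace.exp (M.inc u) = M.inc p' := by
  obtain ⟨p', h⟩ := A2_const M u p
  refine ⟨p', ?_⟩
  rw [← h]
  have e : NormedSpace.exp (-M.inc u) * (NormedSpace.exp (M.inc u) * M.inc p' *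
      NormedSpace.exp (-M.inc u)) * NormedSpace.exp (M.inc u) =
      (NormedSpace.exp (-M.inc u) * NormedSpace.exp (M.inc u)) * M.inc p' *
        (NormedSpace.exp (-M.inc u) * NormedSpace.exp (M.inc u)) := by
    simp only [mul_assoc]
  rw [e, exp_neg_mul, one_mul, mul_one]

theorem ad_exp_mem' (M : MatModel 𝔸 V H) (u p : V × H) :
    ∃ p' : V × H, NormedSpace.exp (M.inc u) * M.inc p * NormedSpace.exp (-M.inc u) = M.inc p' := by
  obtain ⟨p', h⟩ := ad_exp_mem M (-u) p
  refine ⟨p', ?_⟩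
  rw [map_neg, neg_neg] at h
  exact h

end HG
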