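import Pool.Agent.HG.A2

/-! MODULE A3 (diff 3): `exp(-x) Dexp(x) y ∈ 𝔤` for `x, y ∈ 𝔤`.

`exp_deriv_mem` is the abstract statement.  Let `S` be the (closed, finite-dimensional) subspace
`S`, and suppose `exp(-t x) y exp(t x) ∈ S` for all real `t`.  Then `exp(-x) Dexp(x) y ∈ S`.
-/

namespace HG

open HFinG
open scoped ContDiff Topology

theorem A3_gderiv {𝔸 : Type*} [NormedRing 𝔸] [NormedAlgebra ℝ 𝔸] [CompleteSpace 𝔸]
    (x y : 𝔸) (s t : ℝ) :
    HasDerivAt (fun t : ℝ => NormedSpace.exp (-(t • x)) * NormedSpace.exp (t • (x + s • y)))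
      (s • (NormedSpace.exp (-(t • x)) * y * NormedSpace.exp (t • (x + s • y)))) t := by
  have h1 : HasDerivAt (fun t : ℝ => NormedSpace.exp (-(t • x)))
      (NormedSpace.exp (-(t • x)) * (-x)) t := by
    have := exp_hasDerivAt (-x) t
    simpa only [smul_neg] using this
  have h2 := exp_hasDerivAt' (x + s • y) t
  have h3 := h1.mul h2
  refine h3.congr_deriv ?_
  simp only [mul_add, add_mul, mul_neg, neg_mul, smul_mul_assoc, mul_smul_comm, mul_assoc]
  abel

theorem A3_cont {𝔸 : Type*} [NormedRing 𝔸] [NormedAlgebra ℝ 𝔸] [CompleteSpace 𝔸]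
    (x y : 𝔸) :
    Continuous (fun z : ℝ × ℝ => NormedSpace.exp (-(z.2 • x)) * y *
      NormedSpace.exp (z.2 • (x + z.1 • y)) -
        NormedSpace.exp (-(z.2 • x)) * y * NormedSpace.exp (z.2 • x)) := by
  have hc : Continuous (NormedSpace.exp : 𝔸 → 𝔸) := exp_smooth.continuous
  fun_prop

theorem exp_deriv_mem {𝔸 : Type*} [NormedRing 𝔸] [NormedAlgebra ℝ 𝔸] [CompleteSpace 𝔸]
    (S : Submodule ℝ 𝔸) (hS : IsClosed (S : Set 𝔸)) (x y : 𝔸)
    (h : ∀ t : ℝ, NormedSpace.exp (-(t • x)) * y * NormedSpace.exp (t • x) ∈ S) :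
    NormedSpace.exp (-x) * fderiv ℝ (NormedSpace.exp : 𝔸 → 𝔸) x y ∈ S := by
  have : IsClosed (S : Set 𝔸) := hS
  set ℓ : 𝔸 →L[ℝ] 𝔸 ⧸ S := S.mkQL with hℓ
  have hℓ0 : ∀ a, ℓ a = 0 ↔ a ∈ S := by
    intro a
    rw [hℓ]
    exact Submodule.Quotient.mk_eq_zero S
  rw [← hℓ0]
  -- the function `G s = ℓ (exp (-x) * exp (x + s y))`
  have hd : HasDerivAt (fun s : ℝ => ℓ (NormedSpace.exp (-x) * NormedSpace.exp (x + s • y)))
      (ℓ (NormedSpace.exp (-x) * fderiv ℝ (NormedSpace.exp : 𝔸 → 𝔸) x y)) 0 := by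
    have h1 : HasDerivAt (fun s : ℝ => x + s • y) y 0 := by
      simpa using ((hasDerivAt_id (0:ℝ)).smul_const y).const_add x
    have h2 : HasFDerivAt (NormedSpace.exp : 𝔸 → 𝔸)
        (fderiv ℝ (NormedSpace.exp : 𝔸 → 𝔸) x) (x + (0:ℝ) • y) := by
      rw [zero_smul, add_zero]
      exact (exp_smooth.differentiable (by simp) x).hasFDerivAt
    have h3 := h2.comp_hasDerivAt (0:ℝ) h1
    exact ℓ.hasFDerivAt.comp_hasDerivAt (0:ℝ) (h3.const_mul (NormedSpace.exp (-x)))
  have hz : HasDerivAt (fun s : ℝ => ℓ (NormedSpace.exp (-x) * NormedSpace.exp (x + s • y)))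
      0 0 := by
    rw [hasDerivAt_iff_isLittleO]
    rw [Asymptotics.isLittleO_iff]
    intro ε hε
    have hev : ∀ᶠ s : ℝ in 𝓝 0, ∀ t ∈ Set.Icc (0:ℝ) 1,
        ‖ℓ (NormedSpace.exp (-(t • x)) * y * NormedSpace.exp (t • (x + s • y)) -
          NormedSpace.exp (-(t • x)) * y * NormedSpace.exp (t • x))‖ < ε := by
      apply isCompact_Icc.eventually_forall_of_forall_eventually
      intro t _
      have hc : Continuous (fun z : ℝ × ℝ => ‖ℓ (NormedSpace.exp (-(z.2 • x)) * y *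
          NormedSpace.exp (z.2 • (x + z.1 • y)) -
            NormedSpace.exp (-(z.2 • x)) * y * NormedSpace.exp (z.2 • x))‖) :=
        (ℓ.continuous.comp (A3_cont x y)).norm
      refine (hc.tendsto ((0:ℝ), t)).eventually_lt_const ?_
      simpa using hε
    filter_upwards [hev] with s hs
    have hmv := norm_image_sub_le_of_norm_deriv_le_segment_01'
      (f := fun t : ℝ => ℓ (NormedSpace.exp (-(t • x)) * NormedSpace.exp (t • (x + s • y))))
      (f' := fun t : ℝ => ℓ (s • (NormedSpace.exp (-(t • x)) * y *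
        NormedSpace.exp (t • (x + s • y)))))
      (C := ε * ‖s‖)
      (fun t _ => (ℓ.hasFDerivAt.comp_hasDerivAt t (A3_gderiv x y s t)).hasDerivWithinAt)
      (by
        intro t ht
        have h0 : ℓ (NormedSpace.exp (-(t • x)) * y * NormedSpace.exp (t • x)) = 0 :=
          (hℓ0 _).2 (h t)
        have h1 := hs t ⟨ht.1, ht.2.le⟩
        rw [map_sub, h0, sub_zero] at h1
        rw [map_smul, norm_smul, mul_comm ε]
        exact mul_le_mul_of_nonneg_left h1.le (norm_nonneg _))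
    simp only [one_smul, zero_smul, neg_zero, NormedSpace.exp_zero, mul_one] at hmv
    simp only [zero_smul, add_zero, sub_zero, smul_zero]
    rw [exp_neg_mul]
    exact hmv
  exact (hd.unique hz)

variable {𝔸 V H : Type*} [NormedRing 𝔸] [NormedAlgebra ℝ 𝔸] [CompleteSpace 𝔸]
  [NormedAddCommGroup V] [NormedSpace ℝ V] [FiniteDimensional ℝ V]
  [NormedAddCommGroup H] [NormedSpace ℝ H] [FiniteDimensional ℝ H]

/-- `exp_deriv_mem` for `S = range inc`, and `fderiv ℝ M.sec v y = fderiv ℝ exp (iota v) (iota y)` -/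
theorem Xop_mem (M : MatModel 𝔸 V H) (v y : V) : ∃ p : V × H, M.Xop v y = M.inc p := by
  have hS : IsClosed ((LinearMap.range (M.inc : V × H →ₗ[ℝ] 𝔸) : Submodule ℝ 𝔸) : Set 𝔸) :=
    Submodule.closed_of_finiteDimensional _
  have hfd : fderiv ℝ M.sec v y = fderiv ℝ (NormedSpace.exp : 𝔸 → 𝔸) (M.iota v) (M.iota y) := by
    have h1 : HasFDerivAt (NormedSpace.exp : 𝔸 → 𝔸)
        (fderiv ℝ (NormedSpace.exp : 𝔸 → 𝔸) (M.iota v)) (M.iota v) :=
      (exp_smooth.differentiable (by simp) (M.iota v)).hasFDerivAt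
    have h2 := h1.comp v M.iota.hasFDerivAt
    have h3 : HasFDerivAt M.sec
        ((fderiv ℝ (NormedSpace.exp : 𝔸 → 𝔸) (M.iota v)).comp M.iota) v := h2
    rw [h3.fderiv]
    rfl
  have hmem := exp_deriv_mem _ hS (M.iota v) (M.iota y) (by
    intro t
    obtain ⟨p', hp'⟩ := ad_exp_mem M (t • (v, (0:H))) (y, 0)
    refine ⟨p', ?_⟩
    have e1 : M.inc (t • (v, (0:H))) = t • M.iota v := by
      rw [map_smul, MatModel.inc_apply]
      simp
    have e2 : M.inc (y, (0:H)) = M.iota y := by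
      rw [MatModel.inc_apply]
      simp
    rw [e1, e2] at hp'
    exact hp'.symm)
  obtain ⟨p, hp⟩ := hmem
  refine ⟨p, ?_⟩
  rw [MatModel.Xop_apply, hfd]
  exact hp.symm

end HG
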