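import Pool.Agent.HG.A1

/-! MODULE B1 (diff 1): the section `sec`, existence of the projections.

* `exists_proj`: `M.inc : V × H → 𝔸` is injective and linear, `𝔸` finite-dimensional: it has a linear
  left inverse (`LinearMap.exists_leftInverse_of_injective`), continuous in finite dimension.
* `sec_smooth`: `exp_smooth` composed with the continuous linear `iota`.
* `sec_fderiv`: chain rule.  `sec_fderiv'`: `DA(v) y = A(v) X(v) y` since `exp x exp(-x) = 1`.
* `Xop_self`: `X(v) v = iota v` (`exp_fderiv_self`).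
-/

namespace HG

open HFinG
open scoped ContDiff

variable {𝔸 V H : Type*} [NormedRing 𝔸] [NormedAlgebra ℝ 𝔸]
  [NormedAddCommGroup V] [NormedSpace ℝ V] [NormedAddCommGroup H] [NormedSpace ℝ H]

theorem exists_proj [FiniteDimensional ℝ 𝔸] (M : MatModel 𝔸 V H) :
    ∃ (prm : 𝔸 →L[ℝ] V) (prh : 𝔸 →L[ℝ] H), M.IsProj prm prh := by
  have hk : LinearMap.ker (M.inc : V × H →ₗ[ℝ] 𝔸) = ⊥ := by
    rw [LinearMap.ker_eq_bot']
    rintro ⟨x, A⟩ h
    have h' : M.iota x + M.hat A = 0 := h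
    obtain ⟨h1, h2⟩ := M.inj x A h'
    rw [h1, h2]; rfl
  obtain ⟨g, hg⟩ := LinearMap.exists_leftInverse_of_injective (M.inc : V × H →ₗ[ℝ] 𝔸) hk
  have hg' : ∀ x A, g (M.iota x + M.hat A) = (x, A) := fun x A => by
    have := LinearMap.congr_fun hg (x, A)
    exact this
  refine ⟨LinearMap.toContinuousLinearMap ((LinearMap.fst ℝ V H).comp g),
    LinearMap.toContinuousLinearMap ((LinearMap.snd ℝ V H).comp g), ⟨fun x A => ?_, fun x A => ?_⟩⟩
  · change (g (M.iota x + M.hat A)).1 = x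
    rw [hg']
  · change (g (M.iota x + M.hat A)).2 = A
    rw [hg']

variable [CompleteSpace 𝔸]

omit [CompleteSpace 𝔸] in
theorem B1_sec_zero (M : MatModel 𝔸 V H) : M.sec 0 = 1 := by
  rw [MatModel.sec, map_zero, NormedSpace.exp_zero]

theorem sec_zero (M : MatModel 𝔸 V H) : M.sec 0 = 1 := B1_sec_zero M

theorem sec_smooth (M : MatModel 𝔸 V H) : ContDiff ℝ ∞ M.sec :=
  exp_smooth.comp M.iota.contDiff

theorem sec_fderiv (M : MatModel 𝔸 V H) (v y : V) :
    fderiv ℝ M.sec v y = fderiv ℝ (NormedSpace.exp : 𝔸 → 𝔸) (M.iota v) (M.iota y) := by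
  have h1 : HasFDerivAt M.sec ((fderiv ℝ (NormedSpace.exp : 𝔸 → 𝔸) (M.iota v)).comp M.iota) v :=
    ((exp_smooth.differentiable (by simp)) (M.iota v)).hasFDerivAt.comp v M.iota.hasFDerivAt
  rw [h1.fderiv]; rfl

theorem sec_fderiv' (M : MatModel 𝔸 V H) (v y : V) :
    fderiv ℝ M.sec v y = M.sec v * M.Xop v y := by
  rw [M.Xop_apply, MatModel.sec, ← mul_assoc, exp_mul_neg, one_mul]

theorem Xop_self (M : MatModel 𝔸 V H) (v : V) : M.Xop v v = M.iota v := by
  rw [M.Xop_apply, sec_fderiv, exp_fderiv_self, ← mul_assoc, exp_neg_mul, one_mul]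

theorem Xop_zero (M : MatModel 𝔸 V H) (y : V) : M.Xop 0 y = M.iota y := by
  rw [M.Xop_apply, sec_fderiv, map_zero, exp_fderiv_zero, neg_zero, NormedSpace.exp_zero, one_mul]

theorem Xop_smooth (M : MatModel 𝔸 V H) : ContDiff ℝ ∞ M.Xop := by
  have h1 : ContDiff ℝ ∞ fun v => NormedSpace.exp (-M.iota v) :=
    exp_smooth.comp M.iota.contDiff.neg
  have h2 : ContDiff ℝ ∞ fun v => ContinuousLinearMap.mul ℝ 𝔸 (NormedSpace.exp (-M.iota v)) :=
    (ContinuousLinearMap.mul ℝ 𝔸).contDiff.comp h1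
  have h3 : ContDiff ℝ ∞ (fderiv ℝ M.sec) := (sec_smooth M).fderiv_right (m := ∞) (by simp)
  exact h2.clm_comp h3

end HG
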