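import Pool.Agent.HG.B1
import Pool.Agent.HG.A3

/-! MODULE B2 (diff 3): the exponential section gives a frame.

* `Xop_mc`: `D_w(X y) - D_y(X w) = X(y) X(w) - X(w) X(y)`, where `X(v) y = B(v) DA(v) y`,
  `A = sec`, `B(v) = exp(-iota v)`, `B A = 1`, so `DB(v) w = -B DA(w) B` and
  `D_w(X y) = DB(w) DA(y) + B D²A(w,y) = -X(w) X(y) + B D²A(w, y)`; `D²A` is symmetric
  (`ContDiffAt.isSymmSndFDerivAt`).
* `Xop_decomp`: `Xop_mem` and `IsProj`.
* `frame`: `smooth_m`, `smooth_h` from `Xop_smooth`; `zero_m`, `zero_h` from `Xop_zero`;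
  `mc`: apply `prm` to `Xop_mc`, with `Xop_decomp` and `M.comm_iota`, `M.comm_hat`, `M.comm_hh`.
  `deriv_m`, `deriv_h`: differentiating `X(v) v = iota v` (`Xop_self`) at `v` twice
  in directions `w`, `y` and putting `v = 0` gives `DX(0)(w) y + DX(0)(y) w = 0`; and `Xop_mc` at `0` gives
  `DX(0)(w) y - DX(0)(y) w = [y, w]`.  So `DX(0)(w) y = -½ [w, y] = -½ (iota (mm w y) + hat (mh w y))`.
-/

namespace HG

open HFinG
open scoped ContDiff

variable {𝔸 V H : Type*} [NormedRing 𝔸] [NormedAlgebra ℝ 𝔸] [CompleteSpace 𝔸]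
  [NormedAddCommGroup V] [NormedSpace ℝ V] [FiniteDimensional ℝ V]
  [NormedAddCommGroup H] [NormedSpace ℝ H] [FiniteDimensional ℝ H]

theorem B2_Xop_hasFDeriv (M : MatModel 𝔸 V H) (v y : V) :
    HasFDerivAt (fun v => M.Xop v y)
      ((ContinuousLinearMap.apply ℝ 𝔸 y).comp (fderiv ℝ M.Xop v)) v := by
  have h : HasFDerivAt M.Xop (fderiv ℝ M.Xop v) v :=
    ((Xop_smooth M).differentiable (by simp) v).hasFDerivAt
  exact (ContinuousLinearMap.apply ℝ 𝔸 y).hasFDerivAt.comp v h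

theorem B2_B_deriv (M : MatModel 𝔸 V H) (v : V) :
    ∃ B' : V →L[ℝ] 𝔸, HasFDerivAt (fun v => NormedSpace.exp (-M.iota v)) B' v ∧
      ∀ w, B' w = -(NormedSpace.exp (-M.iota v) * fderiv ℝ M.sec v w
        * NormedSpace.exp (-M.iota v)) := by
  have hsm : ContDiff ℝ ∞ (fun v => NormedSpace.exp (-M.iota v)) :=
    exp_smooth.comp M.iota.contDiff.neg
  have hB : HasFDerivAt (fun v => NormedSpace.exp (-M.iota v))
      (fderiv ℝ (fun v => NormedSpace.exp (-M.iota v)) v) v :=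
    (hsm.differentiable (by simp) v).hasFDerivAt
  have hA : HasFDerivAt M.sec (fderiv ℝ M.sec v) v :=
    ((sec_smooth M).differentiable (by simp) v).hasFDerivAt
  refine ⟨_, hB, fun w => ?_⟩
  have hprod := hB.mul' hA
  have hconst : HasFDerivAt (fun v => NormedSpace.exp (-M.iota v) * M.sec v)
      (0 : V →L[ℝ] 𝔸) v := by
    have e : (fun v => NormedSpace.exp (-M.iota v) * M.sec v) = fun _ => (1 : 𝔸) := by
      funext u
      exact exp_neg_mul (M.iota u)
    rw [e]
    exact hasFDerivAt_const 1 v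
  have huniq := hprod.unique hconst
  have h1 := congrArg (fun (L : V →L[ℝ] 𝔸) => L w) huniq
  simp only [_root_.add_apply, _root_.zero_apply,
    _root_.smul_apply, smul_eq_mul, MulOpposite.smul_eq_mul_unop,
    MulOpposite.unop_op] at h1
  have h2 : fderiv ℝ (fun v => NormedSpace.exp (-M.iota v)) v w * M.sec v
      = -(NormedSpace.exp (-M.iota v) * fderiv ℝ M.sec v w) := by
    exact eq_neg_of_add_eq_zero_right h1
  calc fderiv ℝ (fun v => NormedSpace.exp (-M.iota v)) v w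
      = fderiv ℝ (fun v => NormedSpace.exp (-M.iota v)) v w
          * (M.sec v * NormedSpace.exp (-M.iota v)) := by
        have : M.sec v * NormedSpace.exp (-M.iota v) = 1 := exp_mul_neg (M.iota v)
        rw [this, mul_one]
    _ = -(NormedSpace.exp (-M.iota v) * fderiv ℝ M.sec v w
          * NormedSpace.exp (-M.iota v)) := by
        rw [← mul_assoc, h2, neg_mul]

theorem B2_deriv (M : MatModel 𝔸 V H) (v w y : V) :
    fderiv ℝ M.Xop v w y = -(M.Xop v w * M.Xop v y)
      + NormedSpace.exp (-M.iota v) * fderiv ℝ (fderiv ℝ M.sec) v w y := by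
  obtain ⟨B', hB, hB'⟩ := B2_B_deriv M v
  have hA2 : HasFDerivAt (fderiv ℝ M.sec) (fderiv ℝ (fderiv ℝ M.sec) v) v := by
    have h : ContDiff ℝ ∞ (fderiv ℝ M.sec) := (sec_smooth M).fderiv_right (by simp)
    exact (h.differentiable (by simp) v).hasFDerivAt
  have hAy : HasFDerivAt (fun v => fderiv ℝ M.sec v y)
      ((ContinuousLinearMap.apply ℝ 𝔸 y).comp (fderiv ℝ (fderiv ℝ M.sec) v)) v :=
    (ContinuousLinearMap.apply ℝ 𝔸 y).hasFDerivAt.comp v hA2
  have hprod := hB.mul' hAy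
  have hX := B2_Xop_hasFDeriv M v y
  have huniq := hX.unique hprod
  have h1 := congrArg (fun (L : V →L[ℝ] 𝔸) => L w) huniq
  simp only [ContinuousLinearMap.add_apply, ContinuousLinearMap.comp_apply,
    ContinuousLinearMap.apply_apply,
    ContinuousLinearMap.smul_apply, smul_eq_mul, MulOpposite.smul_eq_mul_unop,
    MulOpposite.unop_op] at h1
  rw [h1, hB' w, M.Xop_apply, M.Xop_apply, add_comm]
  congr 1
  noncomm_ring

theorem Xop_mc (M : MatModel 𝔸 V H) (v w y : V) :
    fderiv ℝ M.Xop v w y - fderiv ℝ M.Xop v y w = M.Xop v y * M.Xop v w - M.Xop v w * M.Xop v y := by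
  have hs : IsSymmSndFDerivAt ℝ M.sec v :=
    ((sec_smooth M).contDiffAt).isSymmSndFDerivAt (by
      rw [minSmoothness_of_isRCLikeNormedField]
      exact WithTop.coe_le_coe.2 (le_top : (2 : ℕ∞) ≤ ⊤))
  rw [B2_deriv M v w y, B2_deriv M v y w, hs w y]
  abel

theorem B2_quad (M : MatModel 𝔸 V H) (w : V) : fderiv ℝ M.Xop 0 w w = 0 := by
  have hconst : ∀ t : ℝ, M.Xop (t • w) w = M.iota w := by
    intro t
    by_cases ht : t = 0
    · rw [ht, zero_smul, Xop_zero]
    · have h := Xop_self M (t • w)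
      rw [map_smul, map_smul] at h
      exact smul_right_injective 𝔸 ht h
  have h1 : HasDerivAt (fun t : ℝ => t • w) w 0 := by
    have := (hasDerivAt_id (0:ℝ)).smul_const w
    simpa using this
  have h2 := B2_Xop_hasFDeriv M ((0:ℝ) • w) w
  have h3 := h2.comp_hasDerivAt (0:ℝ) h1
  have h4 : HasDerivAt ((fun v => M.Xop v w) ∘ fun t : ℝ => t • w) 0 0 := by
    have e : ((fun v => M.Xop v w) ∘ fun t : ℝ => t • w) = fun _ => M.iota w := by
      funext t
      exact hconst t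
    rw [e]
    exact hasDerivAt_const 0 _
  have h5 := h3.unique h4
  simp only [ContinuousLinearMap.comp_apply, ContinuousLinearMap.apply_apply, zero_smul] at h5
  exact h5

theorem Xop_deriv_zero (M : MatModel 𝔸 V H) (w y : V) :
    fderiv ℝ M.Xop 0 w y = -((1 / 2 : ℝ) • (M.iota w * M.iota y - M.iota y * M.iota w)) := by
  have h1 := Xop_mc M 0 w y
  rw [Xop_zero, Xop_zero] at h1
  have h2 := B2_quad M (w + y)
  have h3 := B2_quad M w
  have h4 := B2_quad M y
  simp only [map_add, ContinuousLinearMap.add_apply] at h2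
  rw [h3, h4, zero_add, add_zero] at h2
  have h5 : fderiv ℝ M.Xop 0 y w = -fderiv ℝ M.Xop 0 w y := by
    have h6 : fderiv ℝ M.Xop 0 y w + fderiv ℝ M.Xop 0 w y = 0 := by
      exact h2
    exact eq_neg_of_add_eq_zero_left h6
  rw [h5, sub_neg_eq_add, ← two_smul ℝ] at h1
  have h7 : fderiv ℝ M.Xop 0 w y = (1 / 2 : ℝ) • ((2 : ℝ) • fderiv ℝ M.Xop 0 w y) := by
    rw [smul_smul]; norm_num
  rw [h7, h1, ← smul_neg, neg_sub]

theorem Xop_decomp (M : MatModel 𝔸 V H) {prm : 𝔸 →L[ℝ] V} {prh : 𝔸 →L[ℝ] H} (hP : M.IsProj prm prh)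
    (v y : V) : M.Xop v y = M.iota (M.Xm prm v y) + M.hat (M.Xh prh v y) := by
  obtain ⟨p, hp⟩ := Xop_mem M v y
  rw [M.inc_apply] at hp
  have h1 : M.Xm prm v y = p.1 := by
    show prm (M.Xop v y) = p.1
    rw [hp, hP.m_inc]
  have h2 : M.Xh prh v y = p.2 := by
    show prh (M.Xop v y) = p.2
    rw [hp, hP.h_inc]
  rw [h1, h2, hp]

theorem B2_comp_deriv {Z : Type*} [NormedAddCommGroup Z] [NormedSpace ℝ Z] (M : MatModel 𝔸 V H)
    (pr : 𝔸 →L[ℝ] Z) (v w y : V) :
    fderiv ℝ (fun v => pr.comp (M.Xop v)) v w y = pr (fderiv ℝ M.Xop v w y) := by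
  have h : HasFDerivAt M.Xop (fderiv ℝ M.Xop v) v :=
    ((Xop_smooth M).differentiable (by simp) v).hasFDerivAt
  have h2 : HasFDerivAt (fun v => pr.comp (M.Xop v))
      ((ContinuousLinearMap.compL ℝ V 𝔸 Z pr).comp (fderiv ℝ M.Xop v)) v :=
    (ContinuousLinearMap.compL ℝ V 𝔸 Z pr).hasFDerivAt.comp v h
  rw [h2.fderiv]
  rfl

theorem B2_comp_smooth {Z : Type*} [NormedAddCommGroup Z] [NormedSpace ℝ Z] (M : MatModel 𝔸 V H)
    (pr : 𝔸 →L[ℝ] Z) : ContDiff ℝ ∞ (fun v => pr.comp (M.Xop v)) :=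
  (ContinuousLinearMap.compL ℝ V 𝔸 Z pr).contDiff.comp (Xop_smooth M)

theorem frame (M : MatModel 𝔸 V H) {prm : 𝔸 →L[ℝ] V} {prh : 𝔸 →L[ℝ] H} (hP : M.IsProj prm prh) :
    IsFrame M.D (M.Xm prm) (M.Xh prh) where
  smooth_m := B2_comp_smooth M prm
  smooth_h := B2_comp_smooth M prh
  zero_m := fun y => by
    show prm (M.Xop 0 y) = y
    have h := hP.m_inc y 0
    rw [map_zero, add_zero] at h
    rw [Xop_zero, h]
  zero_h := fun y => by
    show prh (M.Xop 0 y) = 0
    have h := hP.h_inc y 0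
    rw [map_zero, add_zero] at h
    rw [Xop_zero, h]
  deriv_m := fun w y => by
    have h := B2_comp_deriv M prm 0 w y
    rw [Xop_deriv_zero, M.comm_iota, map_neg, map_smul, hP.m_inc] at h
    exact h
  deriv_h := fun w y => by
    have h := B2_comp_deriv M prh 0 w y
    rw [Xop_deriv_zero, M.comm_iota, map_neg, map_smul, hP.h_inc] at h
    exact h
  mc := fun v y w => by
    have h1 : fderiv ℝ (M.Xm prm) v w y = prm (fderiv ℝ M.Xop v w y) :=
      B2_comp_deriv M prm v w y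
    have h2 : fderiv ℝ (M.Xm prm) v y w = prm (fderiv ℝ M.Xop v y w) :=
      B2_comp_deriv M prm v y w
    rw [h1, h2, ← map_sub, Xop_mc, Xop_decomp M hP v y, Xop_decomp M hP v w]
    set a := M.Xm prm v y
    set b := M.Xm prm v w
    set α := M.Xh prh v y
    set β := M.Xh prh v w
    have e : (M.iota a + M.hat α) * (M.iota b + M.hat β)
        - (M.iota b + M.hat β) * (M.iota a + M.hat α)
        = M.iota (M.D.mm a b + M.D.act α b - M.D.act β a)
          + M.hat (M.D.mh a b + M.hh α β) := by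
      have c1 := M.comm_iota a b
      have c2 := M.comm_hat α b
      have c3 := M.comm_hat β a
      have c4 := M.comm_hh α β
      rw [map_sub, map_add, map_add, ← c2, ← c3, ← c4]
      have c1' : M.iota (M.D.mm a b) = M.iota a * M.iota b - M.iota b * M.iota a
          - M.hat (M.D.mh a b) := by
        rw [c1]; abel
      rw [c1']
      noncomm_ring
    rw [e, hP.m_inc]

end HG
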