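import Pool.Agent.HG.B2
import Pool.Agent.HFinG.N1

/-! MODULE C1 (diff 2-3): the charts `psi g` of the orbit.

* `rho_fderiv`: `ρ (S (1 + ε X)) = ρ S ρ (1 + ε X)`: the maps `T ↦ ρ (S * T)` and `T ↦ ρ S * ρ T` are equal;
  differentiate at `T = 1` in direction `X`.  `rho_fderiv_right`: same with `ρ (T * S)`.
* `rho_conj`: from the two (`g X g' = (g X) g'`): differentiate `T ↦ ρ (g * T * g') = ρ g * ρ T * ρ g'`
  at `T = 1`, where `g * 1 * g' = 1`.
* `psi_fderiv`: chain rule, `sec_fderiv'`, `Xop_decomp`, `hat_w0`: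
  `Dpsi y = Dρ(g A)(g A X) w0 = ρ(g A) Dρ(1)(X) w0` and `Dρ(1)(iota Xm + hat Xh) w0 = tau Xm`.
* `tau_inj`: `c (tau x) = x`.
* `psi_param`: near `0` the derivative is injective when `ρ g` is injective: `ρ (g A)` is injective as
  `(g A) ((-A) g') = 1`..., `tau` injective, `Xm v` injective near `0` (`HFinG.frame_inj`, `frame`).
-/

namespace HG

open HFinG
open scoped ContDiff Topology

variable {𝔸 V H : Type*} [NormedRing 𝔸] [NormedAlgebra ℝ 𝔸]
  [NormedAddCommGroup V] [NormedSpace ℝ V] [NormedAddCommGroup H] [NormedSpace ℝ H]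
  {M : MatModel 𝔸 V H} {W : Type*} [NormedAddCommGroup W] [NormedSpace ℝ W]

theorem C1_diff (R : RepModel M W) : Differentiable ℝ R.ρ := R.smooth.differentiable (by simp)

theorem rho_fderiv (R : RepModel M W) (S X : 𝔸) :
    fderiv ℝ R.ρ S (S * X) = R.ρ S * fderiv ℝ R.ρ 1 X := by
  have h0 : HasFDerivAt R.ρ (fderiv ℝ R.ρ S) (S * 1) := by
    rw [mul_one]; exact (C1_diff R S).hasFDerivAt
  have h1 : HasFDerivAt (fun T : 𝔸 => R.ρ (S * T))
      ((fderiv ℝ R.ρ S).comp (ContinuousLinearMap.mul ℝ 𝔸 S)) 1 :=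
    h0.comp (1 : 𝔸) (ContinuousLinearMap.mul ℝ 𝔸 S).hasFDerivAt
  have h2 : HasFDerivAt (fun T : 𝔸 => R.ρ S * R.ρ T)
      ((ContinuousLinearMap.mul ℝ (W →L[ℝ] W) (R.ρ S)).comp (fderiv ℝ R.ρ 1)) 1 :=
    (ContinuousLinearMap.mul ℝ (W →L[ℝ] W) (R.ρ S)).hasFDerivAt.comp 1 (C1_diff R 1).hasFDerivAt
  have h3 : (fun T : 𝔸 => R.ρ (S * T)) = fun T => R.ρ S * R.ρ T := by
    funext T; exact R.mul S T
  rw [h3] at h1
  have := congrArg (fun L => L X) (h1.unique h2)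
  simpa using this

theorem rho_fderiv_right (R : RepModel M W) (S X : 𝔸) :
    fderiv ℝ R.ρ S (X * S) = fderiv ℝ R.ρ 1 X * R.ρ S := by
  have h0 : HasFDerivAt R.ρ (fderiv ℝ R.ρ S) (1 * S) := by
    rw [one_mul]; exact (C1_diff R S).hasFDerivAt
  have hm : ∀ (B : Type _) [NormedRing B] [NormedAlgebra ℝ B] (b : B) (T : B),
      HasFDerivAt (fun T : B => T * b) ((ContinuousLinearMap.mul ℝ B).flip b) T := by
    intro B _ _ b T
    exact ((ContinuousLinearMap.mul ℝ B).flip b).hasFDerivAt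
  have h1 : HasFDerivAt (fun T : 𝔸 => R.ρ (T * S))
      ((fderiv ℝ R.ρ S).comp ((ContinuousLinearMap.mul ℝ 𝔸).flip S)) 1 :=
    h0.comp (1 : 𝔸) (hm 𝔸 S 1)
  have h2 : HasFDerivAt (fun T : 𝔸 => R.ρ T * R.ρ S)
      (((ContinuousLinearMap.mul ℝ (W →L[ℝ] W)).flip (R.ρ S)).comp (fderiv ℝ R.ρ 1)) 1 :=
    ((ContinuousLinearMap.mul ℝ (W →L[ℝ] W)).flip (R.ρ S)).hasFDerivAt.comp 1
      (C1_diff R 1).hasFDerivAt
  have h3 : (fun T : 𝔸 => R.ρ (T * S)) = fun T => R.ρ T * R.ρ S := by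
    funext T; exact R.mul T S
  rw [h3] at h1
  have := congrArg (fun L => L X) (h1.unique h2)
  simpa using this

theorem rho_conj (R : RepModel M W) {g g' : 𝔸} (h : g * g' = 1) (X : 𝔸) :
    fderiv ℝ R.ρ 1 (g * X * g') = R.ρ g * fderiv ℝ R.ρ 1 X * R.ρ g' := by
  have h0 : HasFDerivAt R.ρ (fderiv ℝ R.ρ 1) (g * 1 * g') := by
    rw [mul_one, h]; exact (C1_diff R 1).hasFDerivAt
  have h1 : HasFDerivAt (fun T : 𝔸 => R.ρ (g * T * g'))
      ((fderiv ℝ R.ρ 1).comp (((ContinuousLinearMap.mul ℝ 𝔸).flip g').comp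
        (ContinuousLinearMap.mul ℝ 𝔸 g))) 1 :=
    h0.comp (1 : 𝔸) (((ContinuousLinearMap.mul ℝ 𝔸).flip g').comp
        (ContinuousLinearMap.mul ℝ 𝔸 g)).hasFDerivAt
  have h2 : HasFDerivAt (fun T : 𝔸 => R.ρ g * R.ρ T * R.ρ g')
      ((((ContinuousLinearMap.mul ℝ (W →L[ℝ] W)).flip (R.ρ g')).comp
        (ContinuousLinearMap.mul ℝ (W →L[ℝ] W) (R.ρ g))).comp (fderiv ℝ R.ρ 1)) 1 :=
    (((ContinuousLinearMap.mul ℝ (W →L[ℝ] W)).flip (R.ρ g')).comp
        (ContinuousLinearMap.mul ℝ (W →L[ℝ] W) (R.ρ g))).hasFDerivAt.comp 1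
      (C1_diff R 1).hasFDerivAt
  have h3 : (fun T : 𝔸 => R.ρ (g * T * g')) = fun T => R.ρ g * R.ρ T * R.ρ g' := by
    funext T; rw [R.mul, R.mul]
  rw [h3] at h1
  have := congrArg (fun L => L X) (h1.unique h2)
  simpa using this

theorem tau_inj (R : RepModel M W) : Function.Injective R.tau := by
  intro x y hxy
  have := congrArg R.c hxy
  rw [R.tau_apply, R.tau_apply, R.c_iota, R.c_iota] at this
  exact this

theorem rho_inv (R : RepModel M W) {g g' : 𝔸} (h : g * g' = 1) (w : W) : R.ρ g (R.ρ g' w) = w := by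
  have h1 := R.mul g g'
  rw [h, R.one] at h1
  have := congrArg (fun L => L w) h1
  simpa using this.symm

variable [CompleteSpace 𝔸]

theorem psi_smooth (R : RepModel M W) (g : 𝔸) : ContDiff ℝ ∞ (R.psi g) := by
  have h1 : ContDiff ℝ ∞ fun v => R.ρ (g * M.sec v) :=
    R.smooth.comp (contDiff_const.mul (sec_smooth M))
  exact h1.clm_apply contDiff_const

theorem psi_zero (R : RepModel M W) (g : 𝔸) : R.psi g 0 = R.ρ g R.w0 := by
  rw [RepModel.psi, sec_zero, mul_one]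

variable [FiniteDimensional ℝ V] [FiniteDimensional ℝ H]

theorem psi_fderiv (R : RepModel M W) {prm : 𝔸 →L[ℝ] V} {prh : 𝔸 →L[ℝ] H} (hP : M.IsProj prm prh)
    (g : 𝔸) (v y : V) :
    fderiv ℝ (R.psi g) v y = R.ρ (g * M.sec v) (R.tau (M.Xm prm v y)) := by
  have hs : HasFDerivAt M.sec (fderiv ℝ M.sec v) v :=
    ((sec_smooth M).differentiable (by simp) v).hasFDerivAt
  have h1 : HasFDerivAt (fun v => g * M.sec v)
      ((ContinuousLinearMap.mul ℝ 𝔸 g).comp (fderiv ℝ M.sec v)) v :=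
    (ContinuousLinearMap.mul ℝ 𝔸 g).hasFDerivAt.comp v hs
  have h2 : HasFDerivAt (fun v => R.ρ (g * M.sec v))
      ((fderiv ℝ R.ρ (g * M.sec v)).comp
        ((ContinuousLinearMap.mul ℝ 𝔸 g).comp (fderiv ℝ M.sec v))) v :=
    (C1_diff R (g * M.sec v)).hasFDerivAt.comp v h1
  have h3 : HasFDerivAt (R.psi g) ((ContinuousLinearMap.apply ℝ W R.w0).comp
      ((fderiv ℝ R.ρ (g * M.sec v)).comp
        ((ContinuousLinearMap.mul ℝ 𝔸 g).comp (fderiv ℝ M.sec v)))) v :=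
    (ContinuousLinearMap.apply ℝ W R.w0).hasFDerivAt.comp v h2
  rw [h3.fderiv]
  have h4 : g * fderiv ℝ M.sec v y = (g * M.sec v) * M.Xop v y := by
    rw [sec_fderiv', mul_assoc]
  change fderiv ℝ R.ρ (g * M.sec v) (g * fderiv ℝ M.sec v y) R.w0 = _
  rw [h4, rho_fderiv, Xop_decomp M hP, map_add]
  change R.ρ (g * M.sec v) ((fderiv ℝ R.ρ 1 (M.iota (M.Xm prm v y)) +
    fderiv ℝ R.ρ 1 (M.hat (M.Xh prh v y))) R.w0) = _
  rw [add_apply, R.hat_w0, add_zero, R.tau_apply]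

theorem psi_inj (R : RepModel M W) {prm : 𝔸 →L[ℝ] V} {prh : 𝔸 →L[ℝ] H} (hP : M.IsProj prm prh)
    {g g' : 𝔸} (h : g' * g = 1) :
    ∀ᶠ v in 𝓝 (0 : V), Function.Injective (fderiv ℝ (R.psi g) v) := by
  filter_upwards [frame_inj (frame M hP)] with v hv x y hxy
  rw [psi_fderiv R hP, psi_fderiv R hP] at hxy
  have h1 : (NormedSpace.exp (-M.iota v) * g') * (g * M.sec v) = 1 := by
    have : (NormedSpace.exp (-M.iota v) * g') * (g * M.sec v) =
        NormedSpace.exp (-M.iota v) * (g' * g) * M.sec v := by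
      simp only [mul_assoc]
    rw [this, h, mul_one]
    exact exp_neg_mul (M.iota v)
  have h2 := congrArg (R.ρ (NormedSpace.exp (-M.iota v) * g')) hxy
  rw [rho_inv R h1, rho_inv R h1] at h2
  exact hv (tau_inj R h2)

end HG
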