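import Pool.Agent.HG.C1

/-! MODULE C2 (diff 2): the isotropy group acts.

* `hat_fix`: `t ↦ ρ (exp (t hat A)) w0` has derivative `ρ (exp (t hat A)) (dρ(hat A) w0) = 0`
  (`exp_hasDerivAt`, `rho_fderiv`, `hat_w0`); `ode_const`.
* `hat_tau`: for every `t`, `ρ (exp (t hat A)) (tau x) = tau (prm (exp (t hat A) * iota x * exp (-t hat A)))`:
  `ρ g dρ(X) w0 = ρ g dρ(X) ρ g' w0 = dρ (g X g') w0` (`rho_conj`, `hat_fix`), and `g (iota x) g' ∈ 𝔤`
  (`ad_exp_mem'`), `dρ (hat B) w0 = 0`.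
* `path_deriv`: the derivative at `t = 0` of `t ↦ prm (exp (t hat A) * iota x * exp (-t hat A))` is
  `act A x` (`comm_hat`).
-/

namespace HG

open HFinG
open scoped ContDiff Topology

variable {𝔸 V H : Type*} [NormedRing 𝔸] [NormedAlgebra ℝ 𝔸] [CompleteSpace 𝔸]
  [NormedAddCommGroup V] [NormedSpace ℝ V] [NormedAddCommGroup H] [NormedSpace ℝ H]
  [FiniteDimensional ℝ V] [FiniteDimensional ℝ H]
  {M : MatModel 𝔸 V H} {W : Type*} [NormedAddCommGroup W] [NormedSpace ℝ W]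

theorem hat_fix (R : RepModel M W) (A : H) : R.ρ (NormedSpace.exp (M.hat A)) R.w0 = R.w0 := by
  have h : ∀ t : ℝ, HasDerivAt (fun t : ℝ => R.ρ (NormedSpace.exp (t • M.hat A)) R.w0) 0 t := by
    intro t
    have h1 := exp_hasDerivAt (M.hat A) t
    have h2 : HasFDerivAt R.ρ (fderiv ℝ R.ρ (NormedSpace.exp (t • M.hat A)))
        (NormedSpace.exp (t • M.hat A)) := (R.smooth.differentiable (by simp) _).hasFDerivAt
    have h3 := h2.comp_hasDerivAt t h1
    have h4 := (ContinuousLinearMap.apply ℝ W R.w0).hasFDerivAt.comp_hasDerivAt t h3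
    have h5 : (ContinuousLinearMap.apply ℝ W R.w0) (fderiv ℝ R.ρ (NormedSpace.exp (t • M.hat A))
        (NormedSpace.exp (t • M.hat A) * M.hat A)) = 0 := by
      rw [rho_fderiv]
      change R.ρ (NormedSpace.exp (t • M.hat A)) (fderiv ℝ R.ρ 1 (M.hat A) R.w0) = 0
      rw [R.hat_w0, map_zero]
    rw [h5] at h4
    exact h4
  have h6 := ode_const h 1 0
  simpa [R.one] using h6

theorem hat_tau (R : RepModel M W) {prm : 𝔸 →L[ℝ] V} {prh : 𝔸 →L[ℝ] H} (hP : M.IsProj prm prh)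
    (A : H) (x : V) : R.ρ (NormedSpace.exp (M.hat A)) (R.tau x) =
      R.tau (prm (NormedSpace.exp (M.hat A) * M.iota x * NormedSpace.exp (-M.hat A))) := by
  obtain ⟨p, hp⟩ := ad_exp_mem' M (0, A) (x, 0)
  have e1 : M.inc ((0 : V), A) = M.hat A := by
    rw [M.inc_apply]; simp
  have e2 : M.inc (x, (0 : H)) = M.iota x := by
    rw [M.inc_apply]; simp
  rw [e1, e2] at hp
  have h1 : R.ρ (NormedSpace.exp (-M.hat A)) R.w0 = R.w0 := by
    have := hat_fix R (-A)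
    rwa [map_neg] at this
  have h2 := rho_conj R (exp_mul_neg (M.hat A)) (M.iota x)
  have h3 := congrArg (fun L => L R.w0) h2
  have h4 : (R.ρ (NormedSpace.exp (M.hat A)) * fderiv ℝ R.ρ 1 (M.iota x) *
      R.ρ (NormedSpace.exp (-M.hat A))) R.w0 =
      R.ρ (NormedSpace.exp (M.hat A)) (R.tau x) := by
    change R.ρ (NormedSpace.exp (M.hat A)) (fderiv ℝ R.ρ 1 (M.iota x)
      (R.ρ (NormedSpace.exp (-M.hat A)) R.w0)) = _
    rw [h1, R.tau_apply]
  rw [← h4]
  refine h3.symm.trans ?_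
  rw [hp, M.inc_apply, hP.m_inc, R.tau_apply, map_add]
  change fderiv ℝ R.ρ 1 (M.iota p.1) R.w0 + fderiv ℝ R.ρ 1 (M.hat p.2) R.w0 = _
  rw [R.hat_w0, add_zero]

theorem path_deriv {prm : 𝔸 →L[ℝ] V} {prh : 𝔸 →L[ℝ] H} (hP : M.IsProj prm prh)
    (A : H) (x : V) : HasDerivAt (fun t : ℝ =>
      prm (NormedSpace.exp (M.hat (t • A)) * M.iota x * NormedSpace.exp (-M.hat (t • A))))
      (M.D.act A x) 0 := by
  have h1 := exp_hasDerivAt (M.hat A) 0
  have h2 := exp_hasDerivAt (-M.hat A) 0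
  have h3 := (h1.mul (hasDerivAt_const (0 : ℝ) (M.iota x))).mul h2
  have h4 := prm.hasFDerivAt.comp_hasDerivAt (0 : ℝ) h3
  have e1 : M.D.act A x = prm ((NormedSpace.exp ((0 : ℝ) • M.hat A) * M.hat A * M.iota x +
      NormedSpace.exp ((0 : ℝ) • M.hat A) * 0) * NormedSpace.exp ((0 : ℝ) • -M.hat A) +
      NormedSpace.exp ((0 : ℝ) • M.hat A) * M.iota x *
      (NormedSpace.exp ((0 : ℝ) • -M.hat A) * -M.hat A)) := by
    rw [zero_smul, zero_smul, NormedSpace.exp_zero]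
    have e2 : (1 * M.hat A * M.iota x + 1 * 0) * 1 + 1 * M.iota x * (1 * -M.hat A) =
        M.iota (M.D.act A x) + M.hat 0 := by
      rw [← M.comm_hat, map_zero]
      noncomm_ring
    rw [e2, hP.m_inc]
  rw [e1]
  have e3 : (fun t : ℝ =>
      prm (NormedSpace.exp (M.hat (t • A)) * M.iota x * NormedSpace.exp (-M.hat (t • A)))) =
      fun t : ℝ =>
      prm (NormedSpace.exp (t • M.hat A) * M.iota x * NormedSpace.exp (t • -M.hat A)) := by
    funext t
    rw [map_smul, smul_neg]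
  rw [e3]
  exact h4

/-- If `Fm x = F w0 (tau x)` is invariant under the one-parameter groups of `𝔥`, it is
infinitesimally invariant. -/
theorem inv_of_exp (R : RepModel M W) {prm : 𝔸 →L[ℝ] V} {prh : 𝔸 →L[ℝ] H} (hP : M.IsProj prm prh)
    {F : W → W → ℝ} (hF : IsMinkowski fun x => F R.w0 (R.tau x))
    (h : ∀ A x, F R.w0 (R.ρ (NormedSpace.exp (M.hat A)) (R.tau x)) = F R.w0 (R.tau x)) :
    ∀ A x, x ≠ 0 → fderiv ℝ (fun z => (fun x => F R.w0 (R.tau x)) z ^ 2 / 2) x (M.D.act A x) = 0 := by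
  intro A x hx
  have h1 := path_deriv hP A x
  have e0 : prm (NormedSpace.exp (M.hat ((0 : ℝ) • A)) * M.iota x *
      NormedSpace.exp (-M.hat ((0 : ℝ) • A))) = x := by
    rw [zero_smul, map_zero, neg_zero, NormedSpace.exp_zero, one_mul, mul_one]
    have := hP.m_inc x 0
    rwa [map_zero, add_zero] at this
  have h2 : HasFDerivAt (fun z => (fun x => F R.w0 (R.tau x)) z ^ 2 / 2)
      (fderiv ℝ (fun z => (fun x => F R.w0 (R.tau x)) z ^ 2 / 2) x)
      (prm (NormedSpace.exp (M.hat ((0 : ℝ) • A)) * M.iota x *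
        NormedSpace.exp (-M.hat ((0 : ℝ) • A)))) := by
    rw [e0]
    exact (A1_energy_diff hF hx).hasFDerivAt
  have h3 := h2.comp_hasDerivAt (0 : ℝ) h1
  have h4 : ((fun z => (fun x => F R.w0 (R.tau x)) z ^ 2 / 2) ∘ fun t : ℝ =>
      prm (NormedSpace.exp (M.hat (t • A)) * M.iota x * NormedSpace.exp (-M.hat (t • A)))) =
      fun _ => F R.w0 (R.tau x) ^ 2 / 2 := by
    funext t
    change F R.w0 (R.tau (prm (NormedSpace.exp (M.hat (t • A)) * M.iota x *
      NormedSpace.exp (-M.hat (t • A))))) ^ 2 / 2 = _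
    rw [← hat_tau R hP, h]
  rw [h4] at h3
  exact h3.unique (hasDerivAt_const (0 : ℝ) _)

end HG
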