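import Pool.Agent.HG.C2

/-! MODULE D1 (diff 3): every local parametrization of the orbit is locally `psi g ∘ φ`.

`local_param_core`: a general fact.  Let `f : V → W` be smooth, `f 0 = w0`, `Df(0)` injective, `Φ : W → Z`
smooth, `Φ (f v) = 0` for all `v` and `ker DΦ(w0) ⊆ range Df(0)`.  If `q : V' → W` is smooth at `v`, `q v = w0`,
`Φ ∘ q = 0` near `v`, then `q = f ∘ φ` near `v` for some `φ` smooth at `v` with `φ v = 0`.
Proof: let `N` be a complement of `range Df(0)` in `W` (`Submodule.exists_isCompl`), `Θ (y, n) = f y + n` on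
`V × N`; `DΘ(0,0) (y,n) = Df(0) y + n` is bijective; `g` = local inverse of `Θ` (see `HFinG/P6.lean`, `param_local`, for the
use of `ContDiffAt.localInverse`), `(φ, n) = g ∘ q`, so `q = f φ + n` near `v`.  To show `n = 0` near `v`:
`Ψ = Φ ∘ Θ` is strictly differentiable at `(0,0)` and `DΨ(0,0) (0,n) = DΦ(w0) n` is injective on `N`
(if `DΦ(w0) n = 0` then `n ∈ range Df(0) ∩ N`), so `‖DΦ(w0) n‖ ≥ c ‖n‖`, `c > 0` (finite dimension,
`LinearMap.exists_antilipschitzWith`); near `(0,0)`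
`‖Ψ (y,n) - Ψ (y,0) - DΨ(0,0)(0,n)‖ ≤ (c/2) ‖n‖` (`HasStrictFDerivAt`), and `Ψ (y,0) = Φ (f y) = 0`,
`Ψ (φ, n) = Φ (q ·) = 0`.  So `c ‖n‖ ≤ (c/2) ‖n‖`.
`local_param`: apply it to `f = psi 1` (`psi_smooth`, `psi_zero`, `psi_fderiv` at `0`: `Dpsi 1 (0) = tau`, as
`Xm 0 = id`), `q = ρ g' ∘ ψ`, where `ρ g w0 = ψ v`; then `ψ = ρ g ∘ psi 1 ∘ φ = psi g ∘ φ`.
`Dψ(v) = Dpsi g (0) ∘ Dφ(v)` is injective, so `Dφ(v)` is injective, hence bijective by `hV`.
-/

namespace HG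

open HFinG
open scoped ContDiff Topology

theorem D1_equiv {V W : Type*} [NormedAddCommGroup V] [NormedSpace ℝ V]
    [FiniteDimensional ℝ V] [NormedAddCommGroup W] [NormedSpace ℝ W] [FiniteDimensional ℝ W]
    (L : V →L[ℝ] W) (hL : Function.Injective L) (N : Submodule ℝ W)
    (hN : IsCompl (LinearMap.range (L : V →ₗ[ℝ] W)) N) :
    ∃ e : (V × N) ≃L[ℝ] W, (e : (V × N) →L[ℝ] W) =
      L.comp (ContinuousLinearMap.fst ℝ V N) + N.subtypeL.comp (ContinuousLinearMap.snd ℝ V N) := by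
  have : CompleteSpace V := FiniteDimensional.complete ℝ V
  have : CompleteSpace W := FiniteDimensional.complete ℝ W
  have : CompleteSpace N := FiniteDimensional.complete ℝ N
  set T : (V × N) →L[ℝ] W :=
    L.comp (ContinuousLinearMap.fst ℝ V N) + N.subtypeL.comp (ContinuousLinearMap.snd ℝ V N) with hT
  have hTa : ∀ p : V × N, T p = L p.1 + (p.2 : W) := fun p => rfl
  have hinj : Function.Injective T := by
    rw [injective_iff_map_eq_zero]
    intro p hp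
    rw [hTa] at hp
    have h1 : L p.1 = -(p.2 : W) := eq_neg_of_add_eq_zero_left hp
    have h2 : L p.1 ∈ N := by
      rw [h1]; exact N.neg_mem p.2.2
    have h3 : L p.1 = 0 := Submodule.disjoint_def.1 hN.disjoint _ ⟨p.1, rfl⟩ h2
    have h4 : p.1 = 0 := hL (by rw [h3, map_zero])
    have h5 : p.2 = 0 := by
      rw [h3, zero_add] at hp
      exact Subtype.ext hp
    exact Prod.ext h4 h5
  have hsurj : Function.Surjective T := by
    intro w
    have hw : w ∈ LinearMap.range (L : V →ₗ[ℝ] W) ⊔ N := by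
      rw [hN.sup_eq_top]; exact Submodule.mem_top
    obtain ⟨r, ⟨y, hy⟩, n, hn, hrn⟩ := Submodule.mem_sup.1 hw
    refine ⟨(y, ⟨n, hn⟩), ?_⟩
    rw [hTa, ← hrn, ← hy]
    rfl
  exact ⟨ContinuousLinearEquiv.ofBijective T (LinearMap.ker_eq_bot.mpr hinj)
    (LinearMap.range_eq_top.mpr hsurj), ContinuousLinearEquiv.coe_ofBijective _ _ _⟩

theorem local_param_core {V V' W Z : Type*} [NormedAddCommGroup V] [NormedSpace ℝ V]
    [FiniteDimensional ℝ V] [NormedAddCommGroup V'] [NormedSpace ℝ V'] [FiniteDimensional ℝ V']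
    [NormedAddCommGroup W] [NormedSpace ℝ W] [FiniteDimensional ℝ W]
    [NormedAddCommGroup Z] [NormedSpace ℝ Z] {f : V → W} (hf : ContDiff ℝ ∞ f)
    (hi : Function.Injective (fderiv ℝ f 0)) {Φ : W → Z} (hΦ : ContDiff ℝ ∞ Φ)
    (h0 : ∀ v, Φ (f v) = 0) (hker : ∀ w, fderiv ℝ Φ (f 0) w = 0 → ∃ y, fderiv ℝ f 0 y = w)
    {q : V' → W} {v : V'} (hq : ContDiffAt ℝ ∞ q v) (hqv : q v = f 0)
    (hq0 : ∀ᶠ v' in 𝓝 v, Φ (q v') = 0) :
    ∃ φ : V' → V, ContDiffAt ℝ ∞ φ v ∧ φ v = 0 ∧ ∀ᶠ v' in 𝓝 v, q v' = f (φ v') := by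
  have : CompleteSpace V := FiniteDimensional.complete ℝ V
  have : CompleteSpace W := FiniteDimensional.complete ℝ W
  obtain ⟨N, hN⟩ := Submodule.exists_isCompl (LinearMap.range (fderiv ℝ f 0 : V →ₗ[ℝ] W))
  have : CompleteSpace N := FiniteDimensional.complete ℝ N
  obtain ⟨e, he⟩ := D1_equiv (fderiv ℝ f 0) hi N hN
  let Θ : V × N → W := fun p => f p.1 + (p.2 : W)
  have hΘ : ContDiff ℝ ∞ Θ :=
    (hf.comp contDiff_fst).add (N.subtypeL.contDiff.comp contDiff_snd)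
  have hfd : HasFDerivAt Θ (e : (V × N) →L[ℝ] W) (0, 0) := by
    rw [he]
    have hf0 : HasFDerivAt f (fderiv ℝ f 0) (((0 : V), (0 : N)) : V × N).1 :=
      (hf.differentiable (by simp) 0).hasFDerivAt
    have h1 : HasFDerivAt (fun p : V × N => f p.1)
        ((fderiv ℝ f 0).comp (ContinuousLinearMap.fst ℝ V N)) (0, 0) :=
      hf0.comp ((0 : V), (0 : N)) (ContinuousLinearMap.fst ℝ V N).hasFDerivAt
    have h2 : HasFDerivAt (fun p : V × N => (p.2 : W))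
        (N.subtypeL.comp (ContinuousLinearMap.snd ℝ V N)) (0, 0) :=
      (N.subtypeL.comp (ContinuousLinearMap.snd ℝ V N)).hasFDerivAt
    exact h1.add h2
  have hsm : ContDiffAt ℝ ∞ Θ (0, 0) := hΘ.contDiffAt
  have hne : (∞ : WithTop ℕ∞) ≠ 0 := by simp
  have hbase : Θ (0, 0) = q v := by
    rw [hqv]
    change f 0 + ((0 : N) : W) = f 0
    simp
  set g := hsm.localInverse hfd hne with hg
  have hg0 : g (q v) = (0, 0) := by
    rw [← hbase]
    exact hsm.localInverse_apply_image hfd hne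
  have hgs : ContDiffAt ℝ ∞ g (q v) := by
    rw [← hbase]
    exact hsm.to_localInverse hfd hne
  have hgr : ∀ᶠ w in 𝓝 (q v), Θ (g w) = w := by
    rw [← hbase]
    exact (hsm.hasStrictFDerivAt' hfd hne).eventually_right_inverse
  have hgq : ContDiffAt ℝ ∞ (fun v' => g (q v')) v := ContDiffAt.comp (g := g) v hgs hq
  have hφ : ContDiffAt ℝ ∞ (fun v' => (g (q v')).1) v := contDiffAt_fst.comp v hgq
  refine ⟨fun v' => (g (q v')).1, hφ, by change (g (q v)).1 = 0; rw [hg0], ?_⟩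
  -- the `N`-component vanishes
  have hΨ : ContDiff ℝ ∞ fun p : V × N => Φ (Θ p) := hΦ.comp hΘ
  have hst : HasStrictFDerivAt (fun p : V × N => Φ (Θ p))
      (fderiv ℝ (fun p : V × N => Φ (Θ p)) (0, 0)) (0, 0) :=
    hΨ.contDiffAt.hasStrictFDerivAt (by simp)
  have hD : ∀ n : N, fderiv ℝ (fun p : V × N => Φ (Θ p)) (0, 0) (0, n) =
      fderiv ℝ Φ (f 0) (n : W) := by
    intro n
    have hΘ0 : Θ (0, 0) = f 0 := by rw [hbase, hqv]
    have h1 : HasFDerivAt Φ (fderiv ℝ Φ (f 0)) (Θ (0, 0)) := by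
      rw [hΘ0]
      exact (hΦ.differentiable (by simp) _).hasFDerivAt
    have h2 : HasFDerivAt (fun p : V × N => Φ (Θ p))
        ((fderiv ℝ Φ (f 0)).comp (e : (V × N) →L[ℝ] W)) (0, 0) := h1.comp (0, 0) hfd
    rw [h2.fderiv, he]
    simp
  let K0 : N →ₗ[ℝ] Z := (fderiv ℝ Φ (f 0) : W →ₗ[ℝ] Z).comp N.subtype
  have hK0 : LinearMap.ker K0 = ⊥ := by
    rw [LinearMap.ker_eq_bot']
    intro n hn
    have hn' : fderiv ℝ Φ (f 0) (n : W) = 0 := hn
    obtain ⟨y, hy⟩ := hker _ hn'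
    have h3 : (n : W) = 0 := Submodule.disjoint_def.1 hN.disjoint _ ⟨y, hy⟩ n.2
    exact Subtype.ext h3
  obtain ⟨K, hK, hanti⟩ := LinearMap.exists_antilipschitzWith K0 hK0
  have hKle : ∀ n : N, ‖n‖ ≤ K * ‖fderiv ℝ Φ (f 0) (n : W)‖ := by
    intro n
    have := hanti.le_mul_dist n 0
    rw [dist_zero_right, map_zero, dist_zero_right] at this
    exact this
  have hKpos : (0 : ℝ) < K := by exact_mod_cast hK
  have hlo := hst.isLittleO.def (show (0 : ℝ) < 1 / (2 * K) by positivity)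
  -- the pair of points
  have hcont : ContinuousAt (fun v' => (g (q v'), ((g (q v')).1, (0 : N)))) v := by
    have h1 : ContinuousAt (fun v' => g (q v')) v := hgq.continuousAt
    exact h1.prodMk (hφ.continuousAt.prodMk continuousAt_const)
  have hlim : Filter.Tendsto (fun v' => (g (q v'), ((g (q v')).1, (0 : N)))) (𝓝 v)
      (𝓝 (((0 : V), (0 : N)), ((0 : V), (0 : N)))) := by
    have h1 := hcont.tendsto
    rw [hg0] at h1
    exact h1
  have hev := hlim.eventually hlo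
  have c1 : ∀ᶠ v' in 𝓝 v, Θ (g (q v')) = q v' := hq.continuousAt.eventually hgr
  filter_upwards [hev, c1, hq0] with v' d1 d2 d3
  have e1 : (Φ (Θ (g (q v')))) = 0 := by rw [d2, d3]
  have e2 : Φ (Θ ((g (q v')).1, (0 : N))) = 0 := by
    have : Θ ((g (q v')).1, (0 : N)) = f (g (q v')).1 := by
      change f (g (q v')).1 + ((0 : N) : W) = _
      simp
    rw [this, h0]
  have e3 : g (q v') - ((g (q v')).1, (0 : N)) = (0, (g (q v')).2) := by
    refine Prod.ext ?_ ?_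
    · simp
    · simp
  have d4 : ‖fderiv ℝ (fun p : V × N => Φ (Θ p)) (0, 0) (0, (g (q v')).2)‖ ≤
      1 / (2 * K) * ‖((0 : V), (g (q v')).2)‖ := by
    have d5 : ‖Φ (Θ (g (q v'))) - Φ (Θ ((g (q v')).1, (0 : N))) -
        fderiv ℝ (fun p : V × N => Φ (Θ p)) (0, 0) (g (q v') - ((g (q v')).1, (0 : N)))‖ ≤
        1 / (2 * K) * ‖g (q v') - ((g (q v')).1, (0 : N))‖ := d1
    rw [e1, e2, e3, sub_zero, zero_sub, norm_neg] at d5
    exact d5
  rw [hD] at d4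
  have d6 : ‖((0 : V), (g (q v')).2)‖ = ‖(g (q v')).2‖ := by
    simp [Prod.norm_def]
  rw [d6] at d4
  have d7 := hKle (g (q v')).2
  have d8 : ‖(g (q v')).2‖ ≤ ‖(g (q v')).2‖ / 2 := by
    calc ‖(g (q v')).2‖ ≤ K * ‖fderiv ℝ Φ (f 0) ((g (q v')).2 : W)‖ := d7
      _ ≤ K * (1 / (2 * K) * ‖(g (q v')).2‖) := by gcongr
      _ = ‖(g (q v')).2‖ / 2 := by field_simp
  have d9 : (g (q v')).2 = 0 := by
    have : ‖(g (q v')).2‖ ≤ 0 := by linarith
    exact norm_le_zero_iff.1 this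
  calc q v' = Θ (g (q v')) := d2.symm
    _ = f (g (q v')).1 + ((g (q v')).2 : W) := rfl
    _ = f (g (q v')).1 := by rw [d9]; simp

variable {𝔸 V H : Type*} [NormedRing 𝔸] [NormedAlgebra ℝ 𝔸] [CompleteSpace 𝔸]
  [NormedAddCommGroup V] [NormedSpace ℝ V] [NormedAddCommGroup H] [NormedSpace ℝ H]
  [FiniteDimensional ℝ V] [FiniteDimensional ℝ H]
  {M : MatModel 𝔸 V H} {W : Type*} [NormedAddCommGroup W] [NormedSpace ℝ W] [FiniteDimensional ℝ W]
  {V' : Type*} [NormedAddCommGroup V'] [NormedSpace ℝ V'] [FiniteDimensional ℝ V']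

/-- `Ms` is the `G`-orbit of `w0`, for a group `G ⊆ 𝔸` containing `exp (iota V)`, and is given near
`w0` by equations `Φ = 0` whose linearisation at `w0` defines the space `tau V`. -/
structure IsOrbit (R : RepModel M W) (G : Set 𝔸) (Ms : Set W) : Prop where
  one_mem : (1 : 𝔸) ∈ G
  mul_mem : ∀ g ∈ G, ∀ g' ∈ G, g * g' ∈ G
  inv_mem : ∀ g ∈ G, ∃ g' ∈ G, g * g' = 1 ∧ g' * g = 1
  sec_mem : ∀ v, M.sec v ∈ G
  orbit : ∀ z, z ∈ Ms ↔ ∃ g ∈ G, R.ρ g R.w0 = z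
  eqn : ∃ (k : ℕ) (Φ : W → Fin k → ℝ), ContDiff ℝ ∞ Φ ∧ (∀ z ∈ Ms, Φ z = 0) ∧
    ∀ w, fderiv ℝ Φ R.w0 w = 0 → ∃ x, R.tau x = w

theorem local_param (R : RepModel M W) {prm : 𝔸 →L[ℝ] V} {prh : 𝔸 →L[ℝ] H} (hP : M.IsProj prm prh)
    {G : Set 𝔸} {Ms : Set W} (hG : IsOrbit R G Ms)
    (hV : Module.finrank ℝ V' = Module.finrank ℝ V) {U : Set V'} {ψ : V' → W}
    (hψ : IsParam Ms U ψ) {v : V'} (hv : v ∈ U) :
    ∃ g ∈ G, ∃ φ : V' → V, ContDiffAt ℝ ∞ φ v ∧ φ v = 0 ∧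
      Function.Bijective (fderiv ℝ φ v) ∧ ∀ᶠ v' in 𝓝 v, ψ v' = R.psi g (φ v') := by
  obtain ⟨g, hgG, hgz⟩ := (hG.orbit (ψ v)).1 (hψ.mem v hv)
  obtain ⟨g', hg'G, hi1, hi2⟩ := hG.inv_mem g hgG
  obtain ⟨k, Φ, hΦ, hΦ0, hker⟩ := hG.eqn
  have hfr := frame M hP
  have hf0 : R.psi 1 0 = R.w0 := by
    rw [psi_zero, R.one]; rfl
  have hD : ∀ y, fderiv ℝ (R.psi 1) 0 y = R.tau y := by
    intro y
    rw [psi_fderiv R hP, sec_zero, mul_one, R.one, hfr.zero_m]; rfl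
  have hmem : ∀ g ∈ G, ∀ v, R.psi g v ∈ Ms := fun g hg v =>
    (hG.orbit _).2 ⟨g * M.sec v, hG.mul_mem g hg _ (hG.sec_mem v), rfl⟩
  have hψs : ContDiffAt ℝ ∞ ψ v := hψ.smooth.contDiffAt (hψ.isOpen.mem_nhds hv)
  have hqs : ContDiffAt ℝ ∞ (fun v' => R.ρ g' (ψ v')) v :=
    (R.ρ g').contDiff.contDiffAt.comp v hψs
  have hinj0 : Function.Injective (fderiv ℝ (R.psi 1) 0) := by
    intro a b hab
    rw [hD, hD] at hab
    exact tau_inj R hab
  obtain ⟨φ, hφs, hφ0, hφ⟩ := local_param_core (psi_smooth R 1) hinj0 hΦ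
    (fun v => hΦ0 _ (hmem 1 hG.one_mem v))
    (fun w hw => by
      rw [hf0] at hw
      obtain ⟨x, hx⟩ := hker w hw
      exact ⟨x, by rw [hD, hx]⟩)
    hqs (by
      change R.ρ g' (ψ v) = _
      rw [← hgz, rho_inv R hi2, hf0])
    (by
      have c2 : ∀ᶠ v' in 𝓝 v, v' ∈ U := hψ.isOpen.mem_nhds hv
      filter_upwards [c2] with v' hv'
      refine hΦ0 _ ?_
      obtain ⟨l, hl, hlz⟩ := (hG.orbit (ψ v')).1 (hψ.mem v' hv')
      refine (hG.orbit _).2 ⟨g' * l, hG.mul_mem _ hg'G _ hl, ?_⟩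
      rw [R.mul, ← hlz]; rfl)
  have hev : ∀ᶠ v' in 𝓝 v, ψ v' = R.psi g (φ v') := by
    filter_upwards [hφ] with v' hv'
    have h1 : ψ v' = R.ρ g (R.ρ g' (ψ v')) := (rho_inv R hi1 (ψ v')).symm
    rw [h1, hv', RepModel.psi, RepModel.psi, one_mul, R.mul]; rfl
  refine ⟨g, hgG, φ, hφs, hφ0, ?_, hev⟩
  have hd1 : HasFDerivAt φ (fderiv ℝ φ v) v := (hφs.differentiableAt (by simp)).hasFDerivAt
  have hd2 : HasFDerivAt (R.psi g) (fderiv ℝ (R.psi g) (φ v)) (φ v) :=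
    ((psi_smooth R g).differentiable (by simp)).differentiableAt.hasFDerivAt
  have hd3 : HasFDerivAt (fun v' => R.psi g (φ v'))
      ((fderiv ℝ (R.psi g) (φ v)).comp (fderiv ℝ φ v)) v :=
    HasFDerivAt.comp (g := R.psi g) (f := φ) v hd2 hd1
  have hev' : ψ =ᶠ[𝓝 v] fun v' => R.psi g (φ v') := hev
  have hfe : fderiv ℝ ψ v = (fderiv ℝ (R.psi g) (φ v)).comp (fderiv ℝ φ v) := by
    rw [hev'.fderiv_eq, hd3.fderiv]
  have hinj : Function.Injective (fderiv ℝ φ v) := by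
    have h1 := hψ.inj v hv
    rw [hfe, ContinuousLinearMap.coe_comp] at h1
    exact h1.of_comp
  exact ⟨hinj, (LinearMap.injective_iff_surjective_of_finrank_eq_finrank
    (f := (fderiv ℝ φ v : V' →ₗ[ℝ] V)) hV).mp hinj⟩

end HG
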