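import Pool.Agent.HFinG.Loc
import Pool.Agent.HFinG.NDefs

/-!
# Homogeneous spaces of matrix groups: definitions

`𝔸` is a real Banach algebra (of matrices), `𝔤 = iota V ⊕ hat H` a Lie subalgebra of `𝔸` with the
bracket data `D : RedData V H`, `sec v = exp (iota v)` the exponential section.
A (smooth, multiplicative) representation `ρ : 𝔸 → End W` and a vector `w0` with
`dρ (hat A) w0 = 0` give the orbit `G w0 = G/H ⊆ W` and its charts
`psi g v = ρ (g exp (iota v)) w0`.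
-/

namespace HG

open HFinG
open scoped ContDiff

/-- A Lie subalgebra `𝔤 = iota V ⊕ hat H` of the Banach algebra `𝔸`. -/
structure MatModel (𝔸 V H : Type*) [NormedRing 𝔸] [NormedAlgebra ℝ 𝔸]
    [NormedAddCommGroup V] [NormedSpace ℝ V] [NormedAddCommGroup H] [NormedSpace ℝ H] where
  /-- the bracket data -/
  D : RedData V H
  /-- the bracket of `𝔥` -/
  hh : H →L[ℝ] H →L[ℝ] H
  /-- the inclusion of `𝔪` -/
  iota : V →L[ℝ] 𝔸
  /-- the inclusion of `𝔥` -/
  hat : H →L[ℝ] 𝔸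
  comm_iota : ∀ x y, iota x * iota y - iota y * iota x = iota (D.mm x y) + hat (D.mh x y)
  comm_hat : ∀ A x, hat A * iota x - iota x * hat A = iota (D.act A x)
  comm_hh : ∀ A B, hat A * hat B - hat B * hat A = hat (hh A B)
  inj : ∀ x A, iota x + hat A = 0 → x = 0 ∧ A = 0

section
variable {𝔸 V H : Type*} [NormedRing 𝔸] [NormedAlgebra ℝ 𝔸]
  [NormedAddCommGroup V] [NormedSpace ℝ V] [NormedAddCommGroup H] [NormedSpace ℝ H]

/-- The inclusion of `𝔤 = 𝔪 ⊕ 𝔥` in `𝔸`. -/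
noncomputable def MatModel.inc (M : MatModel 𝔸 V H) : V × H →L[ℝ] 𝔸 := M.iota.coprod M.hat

lemma MatModel.inc_apply (M : MatModel 𝔸 V H) (p : V × H) : M.inc p = M.iota p.1 + M.hat p.2 := rfl

/-- The exponential section of `G → G/H`. -/
noncomputable def MatModel.sec (M : MatModel 𝔸 V H) (v : V) : 𝔸 := NormedSpace.exp (M.iota v)

/-- `A(v)⁻¹ DA(v) y` for the exponential section `A = sec`. -/
noncomputable def MatModel.Xop (M : MatModel 𝔸 V H) (v : V) : V →L[ℝ] 𝔸 :=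
  (ContinuousLinearMap.mul ℝ 𝔸 (NormedSpace.exp (-M.iota v))).comp (fderiv ℝ M.sec v)

lemma MatModel.Xop_apply (M : MatModel 𝔸 V H) (v y : V) :
    M.Xop v y = NormedSpace.exp (-M.iota v) * fderiv ℝ M.sec v y := rfl

/-- Linear projections of `𝔸` to `V` and `H` which invert the inclusion `inc`. -/
structure MatModel.IsProj (M : MatModel 𝔸 V H) (prm : 𝔸 →L[ℝ] V) (prh : 𝔸 →L[ℝ] H) : Prop where
  m_inc : ∀ x A, prm (M.iota x + M.hat A) = x
  h_inc : ∀ x A, prh (M.iota x + M.hat A) = A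

/-- The `𝔪`-part of `Xop`. -/
noncomputable def MatModel.Xm (M : MatModel 𝔸 V H) (prm : 𝔸 →L[ℝ] V) (v : V) : V →L[ℝ] V :=
  prm.comp (M.Xop v)

/-- The `𝔥`-part of `Xop`. -/
noncomputable def MatModel.Xh (M : MatModel 𝔸 V H) (prh : 𝔸 →L[ℝ] H) (v : V) : V →L[ℝ] H :=
  prh.comp (M.Xop v)

end

/-- A smooth multiplicative map `ρ : 𝔸 → End W` and a vector `w0` whose isotropy algebra in `𝔤` is
`𝔥`; `c` are coordinates of the tangent space of the orbit at `w0`. -/
structure RepModel {𝔸 V H : Type*} [NormedRing 𝔸] [NormedAlgebra ℝ 𝔸]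
    [NormedAddCommGroup V] [NormedSpace ℝ V] [NormedAddCommGroup H] [NormedSpace ℝ H]
    (M : MatModel 𝔸 V H) (W : Type*) [NormedAddCommGroup W] [NormedSpace ℝ W] where
  /-- the representation -/
  ρ : 𝔸 → W →L[ℝ] W
  smooth : ContDiff ℝ ∞ ρ
  one : ρ 1 = 1
  mul : ∀ S T, ρ (S * T) = ρ S * ρ T
  /-- the base point -/
  w0 : W
  /-- coordinates of a tangent vector at the base point -/
  c : W →L[ℝ] V
  c_iota : ∀ x, c (fderiv ℝ ρ 1 (M.iota x) w0) = x
  hat_w0 : ∀ A, fderiv ℝ ρ 1 (M.hat A) w0 = 0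

section
variable {𝔸 V H : Type*} [NormedRing 𝔸] [NormedAlgebra ℝ 𝔸]
  [NormedAddCommGroup V] [NormedSpace ℝ V] [NormedAddCommGroup H] [NormedSpace ℝ H]
  {M : MatModel 𝔸 V H} {W : Type*} [NormedAddCommGroup W] [NormedSpace ℝ W]

/-- The tangent vector of the orbit at `w0` with coordinates `x`. -/
noncomputable def RepModel.tau (R : RepModel M W) : V →L[ℝ] W :=
  ((fderiv ℝ R.ρ 1).comp M.iota).flip R.w0

lemma RepModel.tau_apply (R : RepModel M W) (x : V) :
    R.tau x = fderiv ℝ R.ρ 1 (M.iota x) R.w0 := rfl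

/-- The chart of the orbit near `ρ g w0`. -/
noncomputable def RepModel.psi (R : RepModel M W) (g : 𝔸) (v : V) : W := R.ρ (g * M.sec v) R.w0

end

end HG
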